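import Pool.Agent.Results.MP_78fef3_co.Tradeoff

/-! The earlier hand-in `ExactConstant` follows from `Tradeoff`. -/

namespace Pool.Agent.Work.MP_78fef3_co.Z

open Pool.Agent.Results.MP_78fef3_co.Tradeoff Filter Real

theorem old_of_new :
    ∀ k : ℕ, 2 ≤ k → ∃ c : ℝ, 0 < c ∧
      ∑ t ∈ Finset.range k, exp (-((t : ℝ) + 1) / c) = k - 1 - 1 / k ∧
      ∀ ε : ℝ, 0 < ε → ∃ C₀ : ℝ, ∀ C ≥ C₀, ∃ n₀ : ℕ, ∀ n ≥ n₀,
        (c - ε) * n * log (log n) ≤ qex n k C ∧ (qex n k C : ℝ) ≤ (c + ε) * n * log (log n) := by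
  intro k hk
  obtain ⟨c, c0, hc, h⟩ := result k hk
  refine ⟨c, c0, hc, fun ε hε => ?_⟩
  obtain ⟨C0, K, h⟩ := h (ε / 2) (half_pos hε)
  refine ⟨max C0 3, fun C hC => eventually_atTop.1 ?_⟩
  have C3 : 3 ≤ C := le_of_max_le_right hC
  have c1 : 1 ≤ log C := (le_log_iff_exp_le (by linarith)).2 (by linarith [exp_one_lt_d9])
  have c2 := log_nonneg c1
  filter_upwards [tendsto_natCast_atTop_atTop.eventually_ge_atTop C,
    ((tendsto_log_atTop.comp tendsto_log_atTop).comp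
      tendsto_natCast_atTop_atTop).eventually_ge_atTop ((|K| + c * log (log C)) / (ε / 2))]
    with n h1 h2
  obtain ⟨a, b⟩ := h C n (le_of_max_le_left hC) h1
  have c3 := c1.trans (log_le_log (by linarith) h1)
  rw [log_div (by linarith) (by linarith)] at a b
  simp only [Function.comp] at h2
  rw [div_le_iff₀ (half_pos hε)] at h2
  have c4 := mul_nonneg hε.le c2
  have c5 := mul_nonneg c0.le c2
  have c6 := le_abs_self K
  refine ⟨le_trans ?_ a, b.trans ?_⟩ <;> rw [mul_right_comm] <;>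
    exact mul_le_mul_of_nonneg_right (by linarith) (Nat.cast_nonneg _)

end Pool.Agent.Work.MP_78fef3_co.Z
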