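import Pool.Agent.Work.MP_78fef3_co.X.Hyp
import Pool.Agent.Work.MP_78fef3_co.R.UpperR
import Pool.Agent.Work.MP_78fef3_co.Y.Core
import Pool.Agent.Work.MP_78fef3_co.R.LowerR

-- merged part: Pool.Agent.Work.MP_78fef3_co.X.Core
section
/-! From the hypergraph theorem to the edge bound. -/

namespace Pool.Agent.Work.MP_78fef3_co.X

open Finset Pool.Agent.Work.MP_78fef3_co.S Pool.Agent.Work.MP_78fef3_co.R

/-- Copy of `R.windowS` for `k = 2`; choose `b ≥ exp (2 z)` with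
`1 + 1 / b ≤ 2 (exp (-z) + exp (-2 z))`. -/
theorem windowX {z : ℝ} (h0 : 0 < z) (hz : 1 / 2 < Real.exp (-z) + Real.exp (-(2 * z))) :
    ∃ b : ℕ, 1 ≤ b ∧ ∀ (V : Type) (s : Finset V) (x : V → ℕ) (J L : ℕ), s.card = J + 1 →
      (∀ w ∈ s, 1 ≤ x w ∧ x w ≤ L) → EnoughS z 2 J L →
      ∃ σ : Fin 3 → V, Function.Injective σ ∧ (∀ t, σ t ∈ s) ∧ (∀ t, x (σ t) ≤ x (σ 0)) ∧
        (∀ t, x (σ 0) ≤ b * x (σ t)) ∧ (b + 1) * x (σ 0) ≤ 2 * b * (x (σ 1) + x (σ 2)) := by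
  obtain ⟨n, hn⟩ := exists_nat_one_div_lt
    (show 0 < 2 * (Real.exp (-z) + Real.exp (-(2 * z))) - 1 by linarith)
  obtain ⟨m, hm⟩ := exists_nat_ge (Real.exp (2 * z))
  obtain ⟨b, hb⟩ : ∃ b, b = n + 1 + m := ⟨_, rfl⟩
  have b0 : 1 ≤ b := by omega
  have b1 : Real.exp (2 * z) ≤ b := hm.trans (Nat.cast_le.2 (by omega))
  have b2 : (b : ℝ) + 1 ≤ 2 * b * (Real.exp (-z) + Real.exp (-(2 * z))) := by
    have n0 : (0 : ℝ) < n + 1 := by positivity
    have n1 : (n : ℝ) + 1 ≤ b := by exact_mod_cast (show n + 1 ≤ b by omega)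
    have := mul_le_mul_of_nonneg_left n1 ((one_div_pos.2 n0).trans hn).le
    rw [div_lt_iff₀ n0] at hn
    linarith
  refine ⟨b, b0, fun V s x J L hs hx hE => ?_⟩
  obtain ⟨p, p1, p2, p3⟩ : ∃ p : ℕ → V, (∀ j, p j ∈ s) ∧ (Monotone fun j => x (p j)) ∧
      ∀ i j, i ≤ J → j ≤ J → p i = p j → i = j := by
    obtain ⟨e⟩ : Nonempty (Fin (J + 1) ≃ s) := ⟨(equivFinOfCardEq hs).symm⟩
    refine ⟨fun j => e (Tuple.sort (fun i => x (e i)) ⟨min j J, by omega⟩), fun j => (e _).2,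
      fun i j h => Tuple.monotone_sort (fun i => x (e i)) (min_le_min_right J h),
      fun i j a b h => ?_⟩
    have := congrArg Fin.val ((Tuple.sort fun i => x (e i)).injective (e.injective (Subtype.ext h)))
    simp only at this
    omega
  by_cases h : ∃ j, 2 ≤ j ∧ j ≤ J ∧ x (p j) ≤ b * x (p (j - 2)) ∧
      (b + 1) * x (p j) ≤ 2 * b * (x (p (j - 1)) + x (p (j - 2)))
  · obtain ⟨j, a, a', c, c'⟩ := h
    refine ⟨fun t => p (j - t), fun t t' e => Fin.ext ?_, fun t => p1 _,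
      fun t => p2 (Nat.sub_le_sub_left (Nat.zero_le _) j),
      fun t => c.trans (Nat.mul_le_mul_left _ (p2 (Nat.sub_le_sub_left (Nat.le_of_lt_succ t.2) j))),
      c'⟩
    have := p3 _ _ (by omega) (by omega) e
    omega
  exfalso
  push Not at h
  have key : ∀ j ≤ J, Real.exp (z * ((j : ℝ) - 2)) ≤ x (p j) := fun j => by
    induction j using Nat.strong_induction_on with
    | h j ih =>
      intro hj
      rcases le_or_gt j 2 with a | a
      · refine (Real.exp_le_one_iff.2 (mul_nonpos_of_nonneg_of_nonpos h0.le ?_)).trans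
          (Nat.one_le_cast.2 (hx _ (p1 j)).1)
        have : (j : ℝ) ≤ 2 := by exact_mod_cast a
        linarith
      have c1 : Real.exp (z * ((j : ℝ) - 2)) * Real.exp (-z) ≤ x (p (j - 1)) := by
        refine le_trans (le_of_eq ?_) (ih _ (by omega) (by omega))
        rw [← Real.exp_add, Nat.cast_sub (by omega)]
        push_cast
        ring_nf
      have c2 : Real.exp (z * ((j : ℝ) - 2)) * Real.exp (-(2 * z)) ≤ x (p (j - 2)) := by
        refine le_trans (le_of_eq ?_) (ih _ (by omega) (by omega))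
        rw [← Real.exp_add, Nat.cast_sub (by omega)]
        push_cast
        ring_nf
      have e0 := Real.exp_pos (z * ((j : ℝ) - 2))
      have b3 : (0 : ℝ) ≤ b := Nat.cast_nonneg b
      rcases le_or_gt (x (p j)) (b * x (p (j - 2))) with c | c
      · have d := (Nat.cast_lt (α := ℝ)).2 (h j a.le hj c)
        push_cast at d
        have d1 := mul_le_mul_of_nonneg_left b2 e0.le
        have d2 := mul_le_mul_of_nonneg_left (add_le_add c1 c2) (mul_nonneg zero_le_two b3)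
        refine le_of_mul_le_mul_left ?_ (show 0 < (b : ℝ) + 1 by positivity)
        linarith
      · have d := (Nat.cast_lt (α := ℝ)).2 c
        push_cast at d
        have d1 := mul_le_mul b1 c2 (by positivity) b3
        rw [mul_left_comm, ← Real.exp_add, add_neg_cancel, Real.exp_zero, mul_one] at d1
        linarith
  have := key J le_rfl
  exact (hE.2.trans_le (by exact_mod_cast this)).not_ge (Nat.cast_le.2 (hx _ (p1 J)).2)

private theorem Co_num (M v0 : ℕ) (hM : 1 ≤ M) : ∃ g : ℕ, 1 ≤ g ∧ ∀ i Q : ℕ, g ≤ i → 2 ≤ Q →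
    Q ^ g < 2 ^ (i + 1) → 1 ≤ i / M ∧ v0 ≤ 2 ^ (i / M) ∧
      2 * Q * ((i + 1) * (i + 2) * (i + 1) ^ 3 * 3 ^ 3) ≤ 2 ^ (i / M) := by
  obtain ⟨i0, h⟩ := CoreA_poly ((2916 * (v0 + 1)) ^ (2 * M)) (10 * (2 * M))
  refine ⟨4 * M + i0, by omega, fun i Q hi hQ hg => ?_⟩
  obtain ⟨q, hq⟩ : ∃ q, q = i / M := ⟨_, rfl⟩
  obtain ⟨R, hR⟩ : ∃ R, R = (i + 1) * (i + 2) * (i + 1) ^ 3 * 3 ^ 3 := ⟨_, rfl⟩
  rw [← hq, ← hR]
  have q1 : 1 ≤ q := hq ▸ (Nat.le_div_iff_mul_le hM).2 (by omega)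
  have q2 : i + 1 ≤ q * (2 * M) := by
    have h1 : i < M * (q + 1) := hq ▸ Nat.lt_mul_div_succ i hM
    nlinarith
  have q3 : 2 ^ (i + 1) ≤ (2 ^ q) ^ (2 * M) := by
    rw [← pow_mul]
    exact Nat.pow_le_pow_right two_pos q2
  have h1 : Q ^ 2 ≤ 2 ^ q := by
    refine (Nat.pow_le_pow_iff_left (show 2 * M ≠ 0 by omega)).1 (le_trans ?_ (hg.le.trans q3))
    rw [← pow_mul]
    exact Nat.pow_le_pow_right (by omega) (by omega)
  have h2 : (2 * R) ^ 2 * (v0 + 1) ≤ 2 ^ q := by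
    refine (Nat.pow_le_pow_iff_left (show 2 * M ≠ 0 by omega)).1 (le_trans ?_
      ((h i (by omega)).trans ((Nat.pow_le_pow_right two_pos i.le_succ).trans q3)))
    rw [pow_mul (i + 2), ← mul_pow]
    refine Nat.pow_le_pow_left ?_ _
    calc _ ≤ (2 * ((i + 2) * (i + 2) * (i + 2) ^ 3 * 3 ^ 3)) ^ 2 * (v0 + 1) := by
          rw [hR]
          gcongr <;> omega
      _ = _ := by ring
  have r1 : 0 < (2 * R) ^ 2 := by
    rw [hR]
    positivity
  refine ⟨q1, le_trans ?_ h2, (Nat.pow_le_pow_iff_left two_ne_zero).1 ?_⟩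
  · exact v0.le_succ.trans (Nat.le_mul_of_pos_left _ r1)
  · calc (2 * Q * R) ^ 2 = Q ^ 2 * (2 * R) ^ 2 := by ring
      _ ≤ 2 ^ q * 2 ^ q :=
          Nat.mul_le_mul h1 ((Nat.le_mul_of_pos_right _ v0.succ_pos).trans h2)
      _ = _ := (sq _).symm

/-- Copy of `R.coreR` with `hyp` for `hypR`: `d t = 2 ^ (τ t + 1)`, `L = 2 Q R`,
`v = 2 ^ (i / (1500 b))`, `G = 3000 b + 1`, and `g` so large that `i ≥ g` and `Q ^ g < 2 ^ (i + 1)`
give `v0, 2 Q R, Q ≤ v`. -/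
theorem coreX {z : ℝ} (h0 : 0 < z) (hz : 1 / 2 < Real.exp (-z) + Real.exp (-(2 * z))) :
    ∃ D g : ℕ, 1 ≤ g ∧ ∀ C : ℝ, (D : ℝ) + 3 < C * 2 → CoreR z 2 C g := by
  classical
  obtain ⟨b, hb, hw⟩ := windowX h0 hz
  obtain ⟨D, v0, hH⟩ := hyp (3000 * b + 1)
  obtain ⟨g, hg, hnum⟩ := Co_num (1500 * b) v0 (by omega)
  refine ⟨D, g, hg, fun C hC => ?_⟩
  intro V _ _ G A B N ω J L Q hA hAB hN hω hsum hQ hE hV
  let x : V → ℕ := fun w => Nat.log 2 (ω w)
  have hx : ∀ w ∈ B, g ≤ x w ∧ x w ≤ L ∧ 2 ^ x w ≤ ω w ∧ ω w < 2 ^ (x w + 1) := by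
    intro w hwB
    obtain ⟨-, h1, h2⟩ := hω w hwB
    have h3 : 2 ^ g ≤ ω w := (Nat.pow_le_pow_left hQ g).trans h1
    refine ⟨Nat.le_log_of_pow_le one_lt_two h3, ?_,
      Nat.pow_log_le_self 2 (((Nat.two_pow_pos g).trans_le h3).ne'),
      Nat.lt_pow_succ_log_self one_lt_two _⟩
    exact (Nat.log_mono_right h2).trans (Nat.log_pow one_lt_two L).le
  have hσ : ∀ a, ∃ σ : Fin 3 → V, a ∈ A → Function.Injective σ ∧ (∀ t, σ t ∈ N a) ∧
      (∀ t, x (σ t) ≤ x (σ 0)) ∧ (∀ t, x (σ 0) ≤ b * x (σ t)) ∧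
      (b + 1) * x (σ 0) ≤ 2 * b * (x (σ 1) + x (σ 2)) := by
    intro a
    by_cases ha : a ∈ A
    · obtain ⟨h1, h2, -⟩ := hN a ha
      obtain ⟨σ, hs⟩ := hw V (N a) x J L h2
        (fun w hwN => ⟨le_trans (by omega) (hx w (h1 hwN)).1, (hx w (h1 hwN)).2.1⟩) hE
      exact ⟨σ, fun _ => hs⟩
    · exact ⟨fun _ => a, fun h1 => absurd h1 ha⟩
  choose σ hσ using hσ
  have hB : ∀ a ∈ A, ∀ t, σ a t ∈ B := fun a ha t => (hN a ha).1 ((hσ a ha).2.1 t)
  obtain ⟨i, hi⟩ := pigeon A hA fun a => x (σ a 0)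
  obtain ⟨τ, hτ⟩ := CoreA_fib (A.filter fun a => x (σ a 0) = i)
    (Fintype.piFinset fun _ : Fin 3 => range (i + 1))
    (Fintype.piFinset_nonempty.2 fun _ => nonempty_range_add_one) (fun a t => x (σ a t))
    fun a ha => Fintype.mem_piFinset.2 fun t => mem_range.2 (Nat.lt_succ_of_le
      (((hσ a (mem_filter.1 ha).1).2.2.1 t).trans (mem_filter.1 ha).2.le))
  rw [Fintype.card_piFinset_const, card_range] at hτ
  obtain ⟨χ, hχ⟩ := colour 3 (Nat.succ_pos 2)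
    ((A.filter fun a => x (σ a 0) = i).filter fun a => (fun t => x (σ a t)) = τ) σ
    fun a ha => (hσ a (mem_filter.1 (mem_filter.1 ha).1).1).1
  obtain ⟨E, hEdef⟩ : ∃ E, E = ((A.filter fun a => x (σ a 0) = i).filter
    fun a => (fun t => x (σ a t)) = τ).filter fun a => ∀ t, χ (σ a t) = t := ⟨_, rfl⟩
  rw [← hEdef] at hχ
  have hEm : ∀ a ∈ E, a ∈ A ∧ x (σ a 0) = i ∧ (∀ t, x (σ a t) = τ t) ∧ ∀ t, χ (σ a t) = t := by
    intro a ha
    rw [hEdef, mem_filter, mem_filter, mem_filter] at ha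
    exact ⟨ha.1.1.1, ha.1.1.2, congrFun ha.1.2, ha.2⟩
  obtain ⟨R, hR⟩ : ∃ R, R = (i + 1) * (i + 2) * (i + 1) ^ 3 * 3 ^ 3 := ⟨_, rfl⟩
  have hAE : A.card ≤ R * E.card := by
    refine (hi.trans (Nat.mul_le_mul_left _ (hτ.trans (Nat.mul_le_mul_left _ hχ)))).trans_eq ?_
    rw [hR]
    simp only [mul_assoc]
  have hEne : E.Nonempty := card_pos.1 (Nat.pos_of_mul_pos_left (hA.card_pos.trans_le hAE))
  obtain ⟨a0, ha0⟩ := id hEne
  obtain ⟨m1, m2, m3, -⟩ := hEm a0 ha0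
  obtain ⟨q1, q2, q3⟩ := hnum i Q (m2 ▸ (hx _ (hB a0 m1 0)).1) hQ
    ((hω _ (hB a0 m1 0)).2.1.trans_lt (m2 ▸ (hx _ (hB a0 m1 0)).2.2.2))
  have q4 : i < 1500 * b * (i / (1500 * b) + 1) := Nat.lt_mul_div_succ i (by omega)
  have q5 : 1500 * b * (i / (1500 * b)) ≤ i := Nat.mul_div_le i _
  rw [← hR] at q3
  generalize i / (1500 * b) = q at q1 q2 q3 q4 q5
  have t0 : τ 0 = i := (m3 0).symm.trans m2
  have t1 : ∀ t, τ t ≤ i := fun t => by
    have := (hσ a0 m1).2.2.1 t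
    rwa [m2, m3] at this
  have t2 : ∀ t, q * 1500 ≤ τ t := fun t => by
    have := (hσ a0 m1).2.2.2.1 t
    rw [m2, m3] at this
    exact Nat.le_of_mul_le_mul_left (c := b) (by linarith) hb
  have t3 : i + q * 1500 ≤ 2 * (τ 1 + τ 2) := by
    have := (hσ a0 m1).2.2.2.2
    rw [m2, m3, m3] at this
    exact Nat.le_of_mul_le_mul_left (c := b) (by linarith) hb
  have hNt : ∀ t, (B.filter fun w => x w = τ t).card * 2 ^ τ t ≤ Q * R * E.card := by
    intro t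
    calc (B.filter fun w => x w = τ t).card * 2 ^ τ t
        ≤ ∑ w ∈ B.filter fun w => x w = τ t, ω w :=
          card_nsmul_le_sum _ _ _ fun w hw' =>
            (mem_filter.1 hw').2 ▸ (hx w (mem_filter.1 hw').1).2.2.1
      _ ≤ ∑ w ∈ B, ω w := sum_le_sum_of_subset (filter_subset _ _)
      _ ≤ Q * (R * E.card) := hsum.trans (Nat.mul_le_mul_left _ hAE)
      _ = _ := (mul_assoc _ _ _).symm
  have hv : ∀ t, (2 ^ q) ^ 1500 ≤ 2 ^ (τ t + 1) := fun t => by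
    rw [← pow_mul]
    exact Nat.pow_le_pow_right two_pos ((t2 t).trans (Nat.le_succ _))
  have hd : ∀ t, 2 ^ (τ t + 1) ≤ 2 ^ (τ 0 + 1) := fun t =>
    Nat.pow_le_pow_right two_pos (Nat.succ_le_succ ((t1 t).trans t0.ge))
  obtain ⟨S, hSE, hS, hdeg⟩ := hH V V (fun t a => σ a t) E (fun t => 2 ^ (τ t + 1)) (2 * Q * R) Q
    (2 ^ q) hEne ((card_le_univ E).trans_lt hV)
    (fun t v => by
      unfold deg
      rcases (E.filter fun e => σ e t = v).eq_empty_or_nonempty with h0 | ⟨e, he⟩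
      · rw [h0]; exact Nat.zero_le _
      obtain ⟨he1, rfl⟩ := mem_filter.1 he
      obtain ⟨n1, -, n2, -⟩ := hEm e he1
      refine le_trans (card_le_card fun a ha => ?_) ((hω _ (hB e n1 t)).1.trans
        ((hx _ (hB e n1 t)).2.2.2.le.trans (by rw [n2])))
      obtain ⟨ha, hae⟩ := mem_filter.1 ha
      exact mem_filter.2 ⟨(hEm a ha).1, hae ▸ (hσ a (hEm a ha).1).2.1 t⟩)
    (fun t => by
      have h1 : (E.image fun a => σ a t).card ≤ (B.filter fun w => x w = τ t).card :=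
        card_le_card fun v hv => by
          obtain ⟨a, ha, rfl⟩ := mem_image.1 hv
          exact mem_filter.2 ⟨hB a (hEm a ha).1 t, (hEm a ha).2.2.1 t⟩
      calc _ ≤ (B.filter fun w => x w = τ t).card * 2 ^ (τ t + 1) := Nat.mul_le_mul_right _ h1
        _ = 2 * ((B.filter fun w => x w = τ t).card * 2 ^ τ t) := by ring
        _ ≤ 2 * (Q * R * E.card) := Nat.mul_le_mul_left _ (hNt t)
        _ = _ := by ring)
    q2 q3
    (le_trans (by
      have : 0 < R := Nat.pos_of_mul_pos_right (hA.card_pos.trans_le hAE)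
      nlinarith) q3)
    (hv 1) (hv 2) (hd 1) (hd 2)
    (by
      rw [← pow_mul, t0]
      exact Nat.pow_le_pow_right two_pos (by nlinarith))
    (by
      rw [← pow_mul, ← pow_add, ← pow_add, ← pow_mul, t0]
      exact Nat.pow_le_pow_right two_pos (by omega))
  have hSA : ∀ a ∈ S, a ∈ A := fun a ha => (hEm a (hSE ha)).1
  have hD : (0 : ℝ) ≤ D := Nat.cast_nonneg D
  exact bridge G 2 C S (fun t a => σ a t) χ hS
    (fun a ha t => (hN a (hSA a ha)).2.2 _ ((hσ a (hSA a ha)).2.1 t))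
    (fun a ha t h1 => disjoint_left.1 hAB (hSA _ h1) (hB a (hSA a ha) t))
    (fun a ha => (hEm a (hSE ha)).2.2.2) (by push_cast; linarith) fun t e he =>
      ⟨(hdeg t e he).1, (Nat.cast_le.2 (hdeg t e he).2).trans_lt (by push_cast; linarith)⟩

theorem core2 {z : ℝ} (h0 : 0 < z)
    (hz : ((2 : ℕ) : ℝ) - 1 - 1 / (2 : ℕ) < ∑ t ∈ range 2, Real.exp (-(z * ((t : ℝ) + 1)))) :
    ∃ C0 : ℝ, ∀ C ≥ C0, ∃ g : ℕ, 1 ≤ g ∧ CoreR z 2 C g := by
  obtain ⟨D, g, hg, h⟩ := coreX h0 (by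
    rw [sum_range_succ, sum_range_one] at hz
    norm_num at hz ⊢
    rw [mul_comm 2 z]
    linarith)
  exact ⟨D + 3, fun C hC => ⟨g, hg, h C (by linarith [Nat.cast_nonneg (α := ℝ) D])⟩⟩

end Pool.Agent.Work.MP_78fef3_co.X
end

-- merged part: Pool.Agent.Work.MP_78fef3_co.Z.CoreT
section
/-! The graph statement when all degrees on the large side lie between `2 ^ l` and `2 ^ L`. -/

namespace Pool.Agent.Work.MP_78fef3_co.Z

open Finset Real Pool.Agent.Work.MP_78fef3_co.S Pool.Agent.Work.MP_78fef3_co.R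
open Pool.Agent.Work.MP_78fef3_co.Y

/-- `CoreR` with a lower bound `2 ^ l` for the weights. -/
def CoreT (z : ℝ) (k : ℕ) (C : ℝ) (g : ℕ) : Prop :=
  ∀ (V : Type) [Fintype V] [DecidableEq V] (G : SimpleGraph V) (A B : Finset V)
    (N : V → Finset V) (ω : V → ℕ) (J L l Q : ℕ),
    A.Nonempty → Disjoint A B →
    (∀ a ∈ A, N a ⊆ B ∧ (N a).card = J + 1 ∧ ∀ w ∈ N a, G.Adj a w) →
    (∀ w ∈ B, (A.filter fun a => w ∈ N a).card ≤ ω w ∧ Q ^ g ≤ ω w ∧ ω w ≤ 2 ^ L) →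
    ∑ w ∈ B, ω w ≤ Q * A.card → 2 ≤ Q → (∀ w ∈ B, 2 ^ l ≤ ω w) →
    (L : ℝ) < l * exp (z * ((J : ℝ) - k)) → Fintype.card V < 2 ^ Q → QR G k C

theorem windowT (k : ℕ) {z : ℝ} (h0 : 0 < z) (V : Type) (s : Finset V) (x : V → ℕ) (J L l : ℕ)
    (hs : s.card = J + 1) (hx : ∀ w ∈ s, l ≤ x w ∧ x w ≤ L)
    (hE : (L : ℝ) < l * exp (z * ((J : ℝ) - k))) :
    ∃ σ : Fin (k + 1) → V, Function.Injective σ ∧ (∀ t, σ t ∈ s) ∧ (∀ t, x (σ t) ≤ x (σ 0)) ∧
      ∀ t : Fin (k + 1), x (σ 0) * exp (-z) ^ (t : ℕ) ≤ x (σ t) := by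
  obtain ⟨p, p1, p2, p3⟩ : ∃ p : ℕ → V, (∀ j, p j ∈ s) ∧ (Monotone fun j => x (p j)) ∧
      ∀ i j, i ≤ J → j ≤ J → p i = p j → i = j := by
    obtain ⟨e⟩ : Nonempty (Fin (J + 1) ≃ s) := ⟨(equivFinOfCardEq hs).symm⟩
    refine ⟨fun j => e (Tuple.sort (fun i => x (e i)) ⟨min j J, by omega⟩), fun j => (e _).2,
      fun i j h => Tuple.monotone_sort (fun i => x (e i)) (min_le_min_right J h), fun i j a b h => ?_⟩
    have := congrArg Fin.val ((Tuple.sort fun i => x (e i)).injective (e.injective (Subtype.ext h)))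
    simp only at this
    omega
  obtain ⟨j, a, b⟩ := exists_min_image (range (J + 1)) (fun j => x (p j) * exp (-z) ^ j)
    nonempty_range_add_one
  have a1 : j ≤ J := Nat.lt_succ_iff.1 (mem_range.1 a)
  have a2 : k ≤ j := by
    by_contra c
    have c1 := (b J (self_mem_range_succ J)).trans_lt (mul_lt_mul_of_pos_right
      ((Nat.cast_le.2 (hx _ (p1 J)).2).trans_lt hE) (by positivity))
    have c0 := (mul_le_mul_of_nonneg_right (Nat.cast_le.2 (hx _ (p1 j)).1)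
      (by positivity)).trans_lt c1
    rw [mul_assoc] at c0
    have c2 := lt_of_mul_lt_mul_left c0 (Nat.cast_nonneg _)
    rw [← exp_nat_mul, ← exp_nat_mul, ← exp_add, exp_lt_exp] at c2
    have c3 := mul_lt_mul_of_pos_right (Nat.cast_lt (α := ℝ).2 (not_le.1 c)) h0
    linarith
  refine ⟨fun t => p (j - t), fun t t' e => Fin.ext ?_, fun t => p1 _,
    fun t => p2 (Nat.sub_le_sub_left (Nat.zero_le _) j), fun t => ?_⟩
  · have := p3 _ _ (by omega) (by omega) e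
    omega
  · have c := b (j - t) (mem_range.2 (by omega))
    refine le_of_mul_le_mul_right (le_trans (le_of_eq ?_) c) (by positivity)
    rw [mul_assoc, ← pow_add, Nat.add_sub_cancel' (by omega)]
    rfl

theorem coreT3 (k : ℕ) (hk : 3 ≤ k) {z : ℝ} (h0 : 0 < z)
    (hz : (k : ℝ) - 1 - 1 / k < ∑ t ∈ range k, exp (-(z * ((t : ℝ) + 1)))) :
    ∃ (C0 : ℝ) (g : ℕ), 1 ≤ g ∧ ∀ C ≥ C0, CoreT z k C g := by
  classical
  obtain ⟨y, hy⟩ : ∃ y, y = exp (-z) := ⟨_, rfl⟩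
  have y0 : 0 ≤ y := hy ▸ exp_nonneg _
  have y1 : y ≤ 1 := hy ▸ exp_le_one_iff.2 (by linarith)
  have k3 : (3 : ℝ) ≤ k := by exact_mod_cast hk
  rw [sum_congr rfl (g := fun t => y ^ (t + 1)) fun t _ => by
    rw [hy, ← exp_nat_mul]
    push_cast
    ring_nf] at hz
  have e1 := sub_pos.2 (first_lt hk y0 y1 hz)
  obtain ⟨s1, hs1⟩ : ∃ s, s = ∑ t ∈ range k, y ^ (t + 1) := ⟨_, rfl⟩
  obtain ⟨u, hu⟩ : ∃ u : ℝ, u = (k + 1 - k * (k - s1)) / (2 * (k + 1)) := ⟨_, rfl⟩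
  have u0 : 0 < u := by
    have a := mul_lt_mul_of_pos_left hz (show (0 : ℝ) < k by linarith)
    rw [← hs1, mul_sub, mul_one_div_cancel (by linarith)] at a
    rw [hu]
    exact div_pos (by linarith) (by positivity)
  have u1 : k * (k - s1) = (1 - 2 * u) * (k + 1) := by rw [hu]; field_simp; ring
  obtain ⟨D, γ, γ0, hyp⟩ := hypY k hk u0
  obtain ⟨b, hb⟩ := exists_nat_ge ((k + 1) / (1 - k * (1 - y)) + (k + 1) / u + (1 + γ) / γ)
  have b1 : (k : ℝ) + 1 ≤ b * (1 - k * (1 - y)) := (div_le_iff₀ e1).1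
    (le_trans ((le_add_of_nonneg_right (by positivity)).trans
      (le_add_of_nonneg_right (by positivity))) hb)
  have b2 : (k : ℝ) + 1 ≤ b * u := (div_le_iff₀ u0).1
    (le_trans ((le_add_of_nonneg_left (by positivity)).trans
      (le_add_of_nonneg_right (by positivity))) hb)
  have b3 : 1 + γ ≤ b * γ := (div_le_iff₀ γ0).1 (le_trans (le_add_of_nonneg_left (by positivity)) hb)
  have b0 : (0 : ℝ) < b := (mul_pos_iff_of_pos_right γ0).1 (by linarith)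
  obtain ⟨c, hc⟩ : ∃ c, c = 4 * (k + 1) * (k + 1) ^ (k + 1) * (384 * (k + 1) ^ 5) ^ (k + 1) *
    3 ^ (2 * (k + 1) ^ 3) := ⟨_, rfl⟩
  obtain ⟨i0, hi0⟩ := CoreA_poly (c ^ (2 * b)) ((k + 3) * (2 * b))
  refine ⟨D + 3, (3 * (k + 1) + 1) * (2 * b) + 1 + i0, by omega, fun C hC0 => ?_⟩
  have hC : (k : ℝ) + 1 < C * k := by nlinarith [Nat.cast_nonneg (α := ℝ) D]
  have hC' : (D : ℝ) < C * k := by nlinarith [Nat.cast_nonneg (α := ℝ) D]
  intro V _ _ G A B N ω J L l Q hA hAB hN hω hsum hQ hl hE hV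
  set g := (3 * (k + 1) + 1) * (2 * b) + 1 + i0 with hg
  let x : V → ℕ := fun w => Nat.log 2 (ω w)
  have hx : ∀ w ∈ B, g ≤ x w ∧ x w ≤ L ∧ 2 ^ x w ≤ ω w ∧ ω w < 2 ^ (x w + 1) := by
    intro w hwB
    obtain ⟨-, h1, h2⟩ := hω w hwB
    have h3 : 2 ^ g ≤ ω w := (Nat.pow_le_pow_left hQ g).trans h1
    refine ⟨Nat.le_log_of_pow_le one_lt_two h3, ?_,
      Nat.pow_log_le_self 2 (((Nat.two_pow_pos g).trans_le h3).ne'),
      Nat.lt_pow_succ_log_self one_lt_two _⟩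
    exact (Nat.log_mono_right h2).trans (Nat.log_pow one_lt_two L).le
  have hσ : ∀ a, ∃ σ : Fin (k + 1) → V, a ∈ A → Function.Injective σ ∧ (∀ t, σ t ∈ N a) ∧
      (∀ t, x (σ t) ≤ x (σ 0)) ∧ ∀ t : Fin (k + 1), x (σ 0) * y ^ (t : ℕ) ≤ x (σ t) := by
    intro a
    by_cases ha : a ∈ A
    · obtain ⟨h1, h2, -⟩ := hN a ha
      obtain ⟨σ, hs⟩ := windowT k h0 V (N a) x J L l h2
        (fun w hwN => ⟨Nat.le_log_of_pow_le one_lt_two (hl w (h1 hwN)), (hx w (h1 hwN)).2.1⟩) hE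
      exact ⟨σ, fun _ => hy ▸ hs⟩
    · exact ⟨fun _ => a, fun h1 => absurd h1 ha⟩
  choose σ hσ using hσ
  have hB : ∀ a ∈ A, ∀ t, σ a t ∈ B := fun a ha t => (hN a ha).1 ((hσ a ha).2.1 t)
  obtain ⟨i, hi⟩ := pigeon A hA fun a => x (σ a 0)
  obtain ⟨τ, hτ⟩ := CoreA_fib (A.filter fun a => x (σ a 0) = i)
    (Fintype.piFinset fun _ : Fin (k + 1) => range (i + 1))
    (Fintype.piFinset_nonempty.2 fun _ => nonempty_range_add_one) (fun a t => x (σ a t))
    fun a ha => Fintype.mem_piFinset.2 fun t => mem_range.2 (Nat.lt_succ_of_le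
      (((hσ a (mem_filter.1 ha).1).2.2.1 t).trans (mem_filter.1 ha).2.le))
  rw [Fintype.card_piFinset_const, card_range] at hτ
  obtain ⟨χ, hχ⟩ := colour (k + 1) (Nat.succ_pos k)
    ((A.filter fun a => x (σ a 0) = i).filter fun a => (fun t => x (σ a t)) = τ) σ
    fun a ha => (hσ a (mem_filter.1 (mem_filter.1 ha).1).1).1
  obtain ⟨E, hEdef⟩ : ∃ E, E = ((A.filter fun a => x (σ a 0) = i).filter
    fun a => (fun t => x (σ a t)) = τ).filter fun a => ∀ t, χ (σ a t) = t := ⟨_, rfl⟩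
  rw [← hEdef] at hχ
  have hEm : ∀ a ∈ E, a ∈ A ∧ x (σ a 0) = i ∧ (∀ t, x (σ a t) = τ t) ∧ ∀ t, χ (σ a t) = t := by
    intro a ha
    rw [hEdef, mem_filter, mem_filter, mem_filter] at ha
    exact ⟨ha.1.1.1, ha.1.1.2, congrFun ha.1.2, ha.2⟩
  obtain ⟨R, hR⟩ : ∃ R, R = (i + 1) * (i + 2) * (i + 1) ^ (k + 1) * (k + 1) ^ (k + 1) := ⟨_, rfl⟩
  have hAE : A.card ≤ R * E.card := by
    refine (hi.trans (Nat.mul_le_mul_left _ (hτ.trans (Nat.mul_le_mul_left _ hχ)))).trans_eq ?_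
    rw [hR]
    simp only [mul_assoc]
  have hEne : E.Nonempty := card_pos.1 (Nat.pos_of_mul_pos_left (hA.card_pos.trans_le hAE))
  obtain ⟨a0, ha0⟩ := id hEne
  obtain ⟨m1, m2, m3, -⟩ := hEm a0 ha0
  have hgi : g ≤ i := m2 ▸ (hx _ (hB a0 m1 0)).1
  have hQi : (Q ^ (3 * (k + 1) + 1)) ^ (2 * b) ≤ 2 ^ i := by
    rw [← pow_mul]
    have h1 : Q ^ g < 2 ^ (i + 1) :=
      (hω _ (hB a0 m1 0)).2.1.trans_lt (m2 ▸ (hx _ (hB a0 m1 0)).2.2.2)
    have h2 : Q ^ ((3 * (k + 1) + 1) * (2 * b) + 1) ≤ Q ^ g :=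
      Nat.pow_le_pow_right (by omega) (by omega)
    have h3 := Nat.mul_le_mul_left (Q ^ ((3 * (k + 1) + 1) * (2 * b))) hQ
    rw [pow_succ] at h1 h2
    omega
  have hNt : ∀ t, (E.image fun a => σ a t).card * 2 ^ τ t ≤ Q * R * E.card := by
    intro t
    calc (E.image fun a => σ a t).card * 2 ^ τ t ≤ ∑ w ∈ E.image fun a => σ a t, ω w :=
          card_nsmul_le_sum _ _ _ fun w hw' => by
            obtain ⟨a, ha, rfl⟩ := mem_image.1 hw'
            exact (hEm a ha).2.2.1 t ▸ (hx _ (hB a (hEm a ha).1 t)).2.2.1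
      _ ≤ ∑ w ∈ B, ω w := sum_le_sum_of_subset (image_subset_iff.2 fun a ha => hB a (hEm a ha).1 t)
      _ ≤ Q * (R * E.card) := hsum.trans (Nat.mul_le_mul_left _ hAE)
      _ = _ := (mul_assoc _ _ _).symm
  obtain ⟨W, hW⟩ : ∃ W, W = 4 * (k + 1) * (Q * R) := ⟨_, rfl⟩
  have Q0 : 0 < Q := by omega
  have QR : 0 < Q * R := by rw [hR]; positivity
  have W0 : (1 : ℝ) ≤ W := Nat.one_le_cast.2 (Nat.succ_le_of_lt (by rw [hW]; positivity))
  obtain ⟨N0, hN0⟩ : ∃ n, n = (384 * (k + 1) ^ 5 * Q ^ 3) ^ (k + 1) * (W * 3 ^ (2 * (k + 1) ^ 3)) :=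
    ⟨_, rfl⟩
  have n1 : N0 ^ b ≤ 2 ^ i := by
    have a1 : N0 ≤ c * (i + 2) ^ (k + 3) * Q ^ (3 * (k + 1) + 1) := by
      have a2 : R ≤ (i + 2) * (i + 2) * (i + 2) ^ (k + 1) * (k + 1) ^ (k + 1) := by
        rw [hR]
        gcongr <;> omega
      rw [hN0, hW, hc]
      refine le_trans (Nat.mul_le_mul_left _ (Nat.mul_le_mul_right _ (Nat.mul_le_mul_left _
        (Nat.mul_le_mul_left _ a2)))) (le_of_eq ?_)
      rw [mul_pow _ (Q ^ 3), ← pow_mul Q, pow_succ Q, show k + 3 = k + 1 + 1 + 1 from rfl,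
        pow_succ (i + 2), pow_succ (i + 2)]
      generalize (384 * (k + 1) ^ 5) ^ (k + 1) = a, 3 ^ (2 * (k + 1) ^ 3) = a', (k + 1) ^ (k + 1) = e,
        (i + 2) ^ (k + 1) = e', Q ^ (3 * (k + 1)) = q
      ring
    have a3 := hi0 i (by omega)
    rw [pow_mul (i + 2), ← mul_pow] at a3
    have a4 := (Nat.pow_le_pow_left a1 (2 * b)).trans
      ((mul_pow _ _ _).trans_le (Nat.mul_le_mul a3 hQi))
    rwa [← sq, mul_comm 2 b, pow_mul, Nat.pow_le_pow_iff_left two_ne_zero] at a4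
  have n2 : W ≤ N0 := hN0 ▸ (Nat.le_mul_of_pos_right _ (by positivity)).trans
    (Nat.le_mul_of_pos_left _ (by positivity))
  obtain ⟨D0, hD0⟩ : ∃ D0 : ℝ, D0 = i * log 2 := ⟨_, rfl⟩
  have d1 : exp D0 = 2 ^ i := by rw [hD0, exp_nat_mul, exp_log two_pos]
  have d0 : 0 ≤ D0 := hD0 ▸ mul_nonneg (Nat.cast_nonneg _) (log_nonneg one_le_two)
  have n3 : (1 : ℝ) ≤ N0 := W0.trans (Nat.cast_le.2 n2)
  have n4 : b * log N0 ≤ D0 := by
    rw [← exp_le_exp, exp_nat_mul, exp_log (by linarith), d1]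
    exact_mod_cast n1
  have l0 := log_nonneg W0
  have l1 : log W ≤ log N0 := log_le_log (by linarith) (Nat.cast_le.2 n2)
  have l2 := (mul_le_mul_of_nonneg_left l1 b0.le).trans n4
  have l3 : exp (log W) = W := exp_log (by linarith)
  obtain ⟨T, hT⟩ : ∃ T, T = E.card / (2 * ((k + 1) * 2 ^ (i + 1))) + 1 := ⟨_, rfl⟩
  have t1 : 2 * ((k + 1) * ((T - 1) * 2 ^ (i + 1))) ≤ E.card := by
    rw [hT, Nat.add_sub_cancel]
    exact le_trans (le_of_eq (by ring)) (Nat.div_mul_le_self _ (2 * ((k + 1) * 2 ^ (i + 1))))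
  obtain ⟨S, hSE, hS, hdeg⟩ := hyp V V (fun t a => σ a t) E T (2 ^ (i + 1)) Q
    (fun t => log W + D0 * (1 - y ^ t)) (D0 - log W) (hT ▸ Nat.le_add_left 1 _) hV Q0
    (fun t v => by
      unfold deg
      rcases (E.filter fun e => σ e t = v).eq_empty_or_nonempty with h0 | ⟨e, he⟩
      · rw [h0]; exact Nat.zero_le _
      obtain ⟨he1, rfl⟩ := mem_filter.1 he
      obtain ⟨n1, n2, -⟩ := hEm e he1
      refine le_trans (card_le_card fun a ha => ?_) ((hω _ (hB e n1 t)).1.trans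
        ((hx _ (hB e n1 t)).2.2.2.le.trans (Nat.pow_le_pow_right two_pos ?_)))
      · obtain ⟨ha, hae⟩ := mem_filter.1 ha
        exact mem_filter.2 ⟨(hEm a ha).1, hae ▸ (hσ a (hEm a ha).1).2.1 t⟩
      · exact Nat.succ_le_succ (((hσ e n1).2.2.1 t).trans n2.le)) t1
    (by
      have a1 : 2 ^ i ≤ Q * R * E.card := by
        refine le_trans ?_ (hNt 0)
        rw [← m3 0, m2]
        exact Nat.le_mul_of_pos_left _ (hEne.image _).card_pos
      have a2 : (T - 1) * 2 ^ i ≤ Q * R * E.card :=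
        le_trans (le_trans (by rw [pow_succ]; nlinarith [Nat.zero_le ((T - 1) * 2 ^ i)]) t1)
          (Nat.le_mul_of_pos_left _ QR)
      have a3 : 2 ^ i * T ≤ E.card * W := by
        obtain ⟨T, rfl⟩ : ∃ n, T = n + 1 := ⟨_, hT⟩
        rw [Nat.add_sub_cancel] at a2
        rw [hW]
        nlinarith [Nat.zero_le (k * (Q * R * E.card))]
      rw [exp_sub, d1, l3, div_mul_eq_mul_div, div_le_iff₀ (by linarith)]
      exact_mod_cast a3)
    (fun t => by
      have a1 : E.card ≤ 2 * ((k + 1) * 2 ^ (i + 1)) * T :=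
        hT ▸ (Nat.lt_mul_div_succ _ (by positivity)).le
      have a2 : (E.image fun a => σ a t).card * 2 ^ τ t ≤ T * (W * 2 ^ i) :=
        (hNt t).trans ((Nat.mul_le_mul_left _ a1).trans_eq (by rw [hW]; ring))
      have a3 := (hσ a0 m1).2.2.2 t
      rw [m2, m3 t] at a3
      have a4 : exp (D0 * y ^ (t : ℕ)) ≤ 2 ^ τ t := by
        rw [← exp_log (two_pos (α := ℝ)), ← exp_nat_mul, exp_le_exp, hD0, mul_right_comm]
        exact mul_le_mul_of_nonneg_right a3 (log_nonneg one_le_two)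
      rw [mul_sub, mul_one, exp_add, exp_sub, l3, d1, ← mul_div_assoc, ← mul_div_assoc,
        le_div_iff₀ (exp_pos _)]
      exact (mul_le_mul_of_nonneg_left a4 (Nat.cast_nonneg _)).trans (by exact_mod_cast a2))
    (prof hk y0 y1 l0 d0 (by
      have a := mul_le_mul_of_nonneg_right b1 l0
      have a' := mul_le_mul_of_nonneg_left l2 e1.le
      linarith))
    (by
      have a := mul_le_mul_of_nonneg_right b2 l0
      have a1 := mul_le_mul_of_nonneg_left l2 u0.le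
      have a2 := mul_le_mul_of_nonneg_left (show (k + 1) * log W ≤ u * D0 by linarith)
        (show (0 : ℝ) ≤ k + 1 by positivity)
      have a3 : 0 ≤ u * ((k + 1) * log W) := by positivity
      have a4 : 0 ≤ k * log W := by positivity
      have a5 : k * (D0 * (k - s1)) = (1 - 2 * u) * (k + 1) * D0 := by rw [← u1]; ring
      have a6 : (1 - u) * ((k + 1) * (D0 - log W)) = (1 - 2 * u) * (k + 1) * D0 +
        (k + 1) * (u * D0) - (k + 1) * log W + u * ((k + 1) * log W) := by ring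
      simp only [kap, sum_add_distrib, sum_sub_distrib, ← mul_sum, sum_const, card_range,
        nsmul_eq_mul, mul_one, ← hs1]
      rw [a6]
      linarith)
    (by
      have a := mul_le_mul_of_nonneg_right b3 (l0.trans l1)
      have a1 := mul_le_mul_of_nonneg_left n4 γ0.le
      have a2 := mul_le_mul_of_nonneg_left l1 γ0.le
      refine le_trans ?_ (exp_le_exp.2 (show log N0 ≤ γ * (D0 - log W) by linarith))
      rw [exp_log (show (0 : ℝ) < N0 by linarith), pow_zero, sub_self, mul_zero, add_zero, exp_add,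
        l3, hN0, Nat.cast_mul _ (W * _), Nat.cast_pow, Nat.cast_mul W, Nat.cast_pow 3]
      gcongr
      calc exp (2 * ((k : ℝ) + 1) ^ 3) = exp 1 ^ (2 * (k + 1) ^ 3) := by
            rw [← exp_nat_mul]
            push_cast
            rw [mul_one]
        _ ≤ _ := pow_le_pow_left₀ (exp_nonneg _) (by
            push_cast
            linarith [exp_one_lt_d9]) _)
  have hSA : ∀ a ∈ S, a ∈ A := fun a ha => (hEm a (hSE ha)).1
  exact bridge G k C S (fun t a => σ a t) χ hS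
    (fun a ha t => (hN a (hSA a ha)).2.2 _ ((hσ a (hSA a ha)).2.1 t))
    (fun a ha t h1 => disjoint_left.1 hAB (hSA _ h1) (hB a (hSA a ha) t))
    (fun a ha => (hEm a (hSE ha)).2.2.2) hC fun t e he =>
      ⟨(hdeg t e he).1, (Nat.cast_le.2 (hdeg t e he).2).trans_lt hC'⟩

theorem co_num (M v0 : ℕ) (hM : 1 ≤ M) : ∃ g : ℕ, 1 ≤ g ∧ ∀ i Q : ℕ, g ≤ i → 2 ≤ Q →
    Q ^ g < 2 ^ (i + 1) → 1 ≤ i / M ∧ v0 ≤ 2 ^ (i / M) ∧
      2 * Q * ((i + 1) * (i + 2) * (i + 1) ^ 3 * 3 ^ 3) ≤ 2 ^ (i / M) := by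
  obtain ⟨i0, h⟩ := CoreA_poly ((2916 * (v0 + 1)) ^ (2 * M)) (10 * (2 * M))
  refine ⟨4 * M + i0, by omega, fun i Q hi hQ hg => ?_⟩
  obtain ⟨q, hq⟩ : ∃ q, q = i / M := ⟨_, rfl⟩
  obtain ⟨R, hR⟩ : ∃ R, R = (i + 1) * (i + 2) * (i + 1) ^ 3 * 3 ^ 3 := ⟨_, rfl⟩
  rw [← hq, ← hR]
  have q1 : 1 ≤ q := hq ▸ (Nat.le_div_iff_mul_le hM).2 (by omega)
  have q2 : i + 1 ≤ q * (2 * M) := by
    have h1 : i < M * (q + 1) := hq ▸ Nat.lt_mul_div_succ i hM
    nlinarith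
  have q3 : 2 ^ (i + 1) ≤ (2 ^ q) ^ (2 * M) := by
    rw [← pow_mul]
    exact Nat.pow_le_pow_right two_pos q2
  have h1 : Q ^ 2 ≤ 2 ^ q := by
    refine (Nat.pow_le_pow_iff_left (show 2 * M ≠ 0 by omega)).1 (le_trans ?_ (hg.le.trans q3))
    rw [← pow_mul]
    exact Nat.pow_le_pow_right (by omega) (by omega)
  have h2 : (2 * R) ^ 2 * (v0 + 1) ≤ 2 ^ q := by
    refine (Nat.pow_le_pow_iff_left (show 2 * M ≠ 0 by omega)).1 (le_trans ?_
      ((h i (by omega)).trans ((Nat.pow_le_pow_right two_pos i.le_succ).trans q3)))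
    rw [pow_mul (i + 2), ← mul_pow]
    refine Nat.pow_le_pow_left ?_ _
    calc _ ≤ (2 * ((i + 2) * (i + 2) * (i + 2) ^ 3 * 3 ^ 3)) ^ 2 * (v0 + 1) := by
          rw [hR]
          gcongr <;> omega
      _ = _ := by ring
  have r1 : 0 < (2 * R) ^ 2 := by
    rw [hR]
    positivity
  refine ⟨q1, le_trans ?_ h2, (Nat.pow_le_pow_iff_left two_ne_zero).1 ?_⟩
  · exact v0.le_succ.trans (Nat.le_mul_of_pos_left _ r1)
  · calc (2 * Q * R) ^ 2 = Q ^ 2 * (2 * R) ^ 2 := by ring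
      _ ≤ 2 ^ q * 2 ^ q :=
          Nat.mul_le_mul h1 ((Nat.le_mul_of_pos_right _ v0.succ_pos).trans h2)
      _ = _ := (sq _).symm

theorem coreT2 {z : ℝ} (h0 : 0 < z)
    (hz : ((2 : ℕ) : ℝ) - 1 - 1 / (2 : ℕ) < ∑ t ∈ range 2, exp (-(z * ((t : ℝ) + 1)))) :
    ∃ (C0 : ℝ) (g : ℕ), 1 ≤ g ∧ ∀ C ≥ C0, CoreT z 2 C g := by
  classical
  obtain ⟨y, hy⟩ : ∃ y, y = exp (-z) := ⟨_, rfl⟩
  have y0 : 0 < y := hy ▸ exp_pos _
  have y1 : y ≤ 1 := hy ▸ exp_le_one_iff.2 (by linarith)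
  have y2 : 0 < 2 * (y + y ^ 2) - 1 := by
    rw [sum_range_succ, sum_range_one] at hz
    rw [hy, ← exp_nat_mul]
    norm_num at hz ⊢
    rw [mul_comm 2 z]
    linarith
  obtain ⟨b, hb'⟩ := exists_nat_ge (1 / y ^ 2 + 1 / (2 * (y + y ^ 2) - 1))
  have b1 : 1 ≤ b * y ^ 2 := (div_le_iff₀ (by positivity)).1
    ((le_add_of_nonneg_right (by positivity)).trans hb')
  have b2 : 1 ≤ b * (2 * (y + y ^ 2) - 1) := (div_le_iff₀ y2).1
    ((le_add_of_nonneg_left (by positivity)).trans hb')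
  have hb : 1 ≤ b := Nat.cast_pos.1 ((mul_pos_iff_of_pos_right y2).1 (one_pos.trans_le b2))
  obtain ⟨D, v0, hH⟩ := X.hyp (3000 * b + 1)
  obtain ⟨g, hg, hnum⟩ := co_num (1500 * b) v0 (by omega)
  refine ⟨D + 3, g, hg, fun C hC0 => ?_⟩
  have hC : (D : ℝ) + 3 < C * 2 := by linarith [Nat.cast_nonneg (α := ℝ) D]
  intro V _ _ G A B N ω J L l Q hA hAB hN hω hsum hQ hl hE hV
  let x : V → ℕ := fun w => Nat.log 2 (ω w)
  have hx : ∀ w ∈ B, g ≤ x w ∧ x w ≤ L ∧ 2 ^ x w ≤ ω w ∧ ω w < 2 ^ (x w + 1) := by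
    intro w hwB
    obtain ⟨-, h1, h2⟩ := hω w hwB
    have h3 : 2 ^ g ≤ ω w := (Nat.pow_le_pow_left hQ g).trans h1
    refine ⟨Nat.le_log_of_pow_le one_lt_two h3, ?_,
      Nat.pow_log_le_self 2 (((Nat.two_pow_pos g).trans_le h3).ne'),
      Nat.lt_pow_succ_log_self one_lt_two _⟩
    exact (Nat.log_mono_right h2).trans (Nat.log_pow one_lt_two L).le
  have hσ : ∀ a, ∃ σ : Fin 3 → V, a ∈ A → Function.Injective σ ∧ (∀ t, σ t ∈ N a) ∧
      (∀ t, x (σ t) ≤ x (σ 0)) ∧ (∀ t, x (σ 0) ≤ b * x (σ t)) ∧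
      (b + 1) * x (σ 0) ≤ 2 * b * (x (σ 1) + x (σ 2)) := by
    intro a
    by_cases ha : a ∈ A
    · obtain ⟨h1, h2, -⟩ := hN a ha
      obtain ⟨σ, s1, s2, s3, s4⟩ := windowT 2 h0 V (N a) x J L l h2
        (fun w hwN => ⟨Nat.le_log_of_pow_le one_lt_two (hl w (h1 hwN)), (hx w (h1 hwN)).2.1⟩) hE
      rw [← hy] at s4
      have x0 := Nat.cast_nonneg (α := ℝ) (x (σ 0))
      refine ⟨σ, fun _ => ⟨s1, s2, s3, fun t => Nat.cast_le (α := ℝ).1 ?_, Nat.cast_le (α := ℝ).1 ?_⟩⟩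
      · have e := (mul_le_mul_of_nonneg_left
          (pow_le_pow_of_le_one y0.le y1 (Nat.le_of_lt_succ t.2)) x0).trans (s4 t)
        have e1 := mul_le_mul_of_nonneg_left e (Nat.cast_nonneg (α := ℝ) b)
        have e2 := mul_le_mul_of_nonneg_left b1 x0
        push_cast
        linarith
      · have e := mul_le_mul_of_nonneg_left (add_le_add
          (show x (σ 0) * y ^ 1 ≤ x (σ 1) from s4 1) (show x (σ 0) * y ^ 2 ≤ x (σ 2) from s4 2))
          (Nat.cast_nonneg (α := ℝ) b)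
        have e2 := mul_le_mul_of_nonneg_left b2 x0
        push_cast
        linarith
    · exact ⟨fun _ => a, fun h1 => absurd h1 ha⟩
  choose σ hσ using hσ
  have hB : ∀ a ∈ A, ∀ t, σ a t ∈ B := fun a ha t => (hN a ha).1 ((hσ a ha).2.1 t)
  obtain ⟨i, hi⟩ := pigeon A hA fun a => x (σ a 0)
  obtain ⟨τ, hτ⟩ := CoreA_fib (A.filter fun a => x (σ a 0) = i)
    (Fintype.piFinset fun _ : Fin 3 => range (i + 1))
    (Fintype.piFinset_nonempty.2 fun _ => nonempty_range_add_one) (fun a t => x (σ a t))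
    fun a ha => Fintype.mem_piFinset.2 fun t => mem_range.2 (Nat.lt_succ_of_le
      (((hσ a (mem_filter.1 ha).1).2.2.1 t).trans (mem_filter.1 ha).2.le))
  rw [Fintype.card_piFinset_const, card_range] at hτ
  obtain ⟨χ, hχ⟩ := colour 3 (Nat.succ_pos 2)
    ((A.filter fun a => x (σ a 0) = i).filter fun a => (fun t => x (σ a t)) = τ) σ
    fun a ha => (hσ a (mem_filter.1 (mem_filter.1 ha).1).1).1
  obtain ⟨E, hEdef⟩ : ∃ E, E = ((A.filter fun a => x (σ a 0) = i).filter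
    fun a => (fun t => x (σ a t)) = τ).filter fun a => ∀ t, χ (σ a t) = t := ⟨_, rfl⟩
  rw [← hEdef] at hχ
  have hEm : ∀ a ∈ E, a ∈ A ∧ x (σ a 0) = i ∧ (∀ t, x (σ a t) = τ t) ∧ ∀ t, χ (σ a t) = t := by
    intro a ha
    rw [hEdef, mem_filter, mem_filter, mem_filter] at ha
    exact ⟨ha.1.1.1, ha.1.1.2, congrFun ha.1.2, ha.2⟩
  obtain ⟨R, hR⟩ : ∃ R, R = (i + 1) * (i + 2) * (i + 1) ^ 3 * 3 ^ 3 := ⟨_, rfl⟩
  have hAE : A.card ≤ R * E.card := by
    refine (hi.trans (Nat.mul_le_mul_left _ (hτ.trans (Nat.mul_le_mul_left _ hχ)))).trans_eq ?_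
    rw [hR]
    simp only [mul_assoc]
  have hEne : E.Nonempty := card_pos.1 (Nat.pos_of_mul_pos_left (hA.card_pos.trans_le hAE))
  obtain ⟨a0, ha0⟩ := id hEne
  obtain ⟨m1, m2, m3, -⟩ := hEm a0 ha0
  obtain ⟨q1, q2, q3⟩ := hnum i Q (m2 ▸ (hx _ (hB a0 m1 0)).1) hQ
    ((hω _ (hB a0 m1 0)).2.1.trans_lt (m2 ▸ (hx _ (hB a0 m1 0)).2.2.2))
  have q4 : i < 1500 * b * (i / (1500 * b) + 1) := Nat.lt_mul_div_succ i (by omega)
  have q5 : 1500 * b * (i / (1500 * b)) ≤ i := Nat.mul_div_le i _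
  rw [← hR] at q3
  generalize i / (1500 * b) = q at q1 q2 q3 q4 q5
  have t0 : τ 0 = i := (m3 0).symm.trans m2
  have t1 : ∀ t, τ t ≤ i := fun t => by
    have := (hσ a0 m1).2.2.1 t
    rwa [m2, m3] at this
  have t2 : ∀ t, q * 1500 ≤ τ t := fun t => by
    have := (hσ a0 m1).2.2.2.1 t
    rw [m2, m3] at this
    exact Nat.le_of_mul_le_mul_left (c := b) (by linarith) hb
  have t3 : i + q * 1500 ≤ 2 * (τ 1 + τ 2) := by
    have := (hσ a0 m1).2.2.2.2
    rw [m2, m3, m3] at this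
    exact Nat.le_of_mul_le_mul_left (c := b) (by linarith) hb
  have hNt : ∀ t, (B.filter fun w => x w = τ t).card * 2 ^ τ t ≤ Q * R * E.card := by
    intro t
    calc (B.filter fun w => x w = τ t).card * 2 ^ τ t
        ≤ ∑ w ∈ B.filter fun w => x w = τ t, ω w :=
          card_nsmul_le_sum _ _ _ fun w hw' =>
            (mem_filter.1 hw').2 ▸ (hx w (mem_filter.1 hw').1).2.2.1
      _ ≤ ∑ w ∈ B, ω w := sum_le_sum_of_subset (filter_subset _ _)
      _ ≤ Q * (R * E.card) := hsum.trans (Nat.mul_le_mul_left _ hAE)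
      _ = _ := (mul_assoc _ _ _).symm
  have hv : ∀ t, (2 ^ q) ^ 1500 ≤ 2 ^ (τ t + 1) := fun t => by
    rw [← pow_mul]
    exact Nat.pow_le_pow_right two_pos ((t2 t).trans (Nat.le_succ _))
  have hd : ∀ t, 2 ^ (τ t + 1) ≤ 2 ^ (τ 0 + 1) := fun t =>
    Nat.pow_le_pow_right two_pos (Nat.succ_le_succ ((t1 t).trans t0.ge))
  obtain ⟨S, hSE, hS, hdeg⟩ := hH V V (fun t a => σ a t) E (fun t => 2 ^ (τ t + 1)) (2 * Q * R) Q
    (2 ^ q) hEne ((card_le_univ E).trans_lt hV)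
    (fun t v => by
      unfold deg
      rcases (E.filter fun e => σ e t = v).eq_empty_or_nonempty with h0 | ⟨e, he⟩
      · rw [h0]; exact Nat.zero_le _
      obtain ⟨he1, rfl⟩ := mem_filter.1 he
      obtain ⟨n1, -, n2, -⟩ := hEm e he1
      refine le_trans (card_le_card fun a ha => ?_) ((hω _ (hB e n1 t)).1.trans
        ((hx _ (hB e n1 t)).2.2.2.le.trans (by rw [n2])))
      obtain ⟨ha, hae⟩ := mem_filter.1 ha
      exact mem_filter.2 ⟨(hEm a ha).1, hae ▸ (hσ a (hEm a ha).1).2.1 t⟩)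
    (fun t => by
      have h1 : (E.image fun a => σ a t).card ≤ (B.filter fun w => x w = τ t).card :=
        card_le_card fun v hv => by
          obtain ⟨a, ha, rfl⟩ := mem_image.1 hv
          exact mem_filter.2 ⟨hB a (hEm a ha).1 t, (hEm a ha).2.2.1 t⟩
      calc _ ≤ (B.filter fun w => x w = τ t).card * 2 ^ (τ t + 1) := Nat.mul_le_mul_right _ h1
        _ = 2 * ((B.filter fun w => x w = τ t).card * 2 ^ τ t) := by ring
        _ ≤ 2 * (Q * R * E.card) := Nat.mul_le_mul_left _ (hNt t)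
        _ = _ := by ring)
    q2 q3
    (le_trans (by
      have : 0 < R := Nat.pos_of_mul_pos_right (hA.card_pos.trans_le hAE)
      nlinarith) q3)
    (hv 1) (hv 2) (hd 1) (hd 2)
    (by
      rw [← pow_mul, t0]
      exact Nat.pow_le_pow_right two_pos (by nlinarith))
    (by
      rw [← pow_mul, ← pow_add, ← pow_add, ← pow_mul, t0]
      exact Nat.pow_le_pow_right two_pos (by omega))
  have hSA : ∀ a ∈ S, a ∈ A := fun a ha => (hEm a (hSE ha)).1
  have hD : (0 : ℝ) ≤ D := Nat.cast_nonneg D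
  exact bridge G 2 C S (fun t a => σ a t) χ hS
    (fun a ha t => (hN a (hSA a ha)).2.2 _ ((hσ a (hSA a ha)).2.1 t))
    (fun a ha t h1 => disjoint_left.1 hAB (hSA _ h1) (hB a (hSA a ha) t))
    (fun a ha => (hEm a (hSE ha)).2.2.2) (by push_cast; linarith) fun t e he =>
      ⟨(hdeg t e he).1, (Nat.cast_le.2 (hdeg t e he).2).trans_lt (by push_cast; linarith)⟩

theorem coreT (k : ℕ) (hk : 2 ≤ k) {z : ℝ} (h0 : 0 < z)
    (hz : (k : ℝ) - 1 - 1 / k < ∑ t ∈ range k, exp (-(z * ((t : ℝ) + 1)))) :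
    ∃ (C0 : ℝ) (g : ℕ), 1 ≤ g ∧ ∀ C ≥ C0, CoreT z k C g := by
  rcases hk.eq_or_lt with rfl | h
  · exact coreT2 h0 hz
  · exact coreT3 k h h0 hz

end Pool.Agent.Work.MP_78fef3_co.Z
end

-- merged part: Pool.Agent.Work.MP_78fef3_co.Z.Low
section
/-! The lower bound, uniform in the ratio `C`. -/

namespace Pool.Agent.Work.MP_78fef3_co.Z

open Finset Pool.Agent.Work.MP_78fef3_co.S

/-- Logarithmic sizes of the layers. -/
noncomputable def xt (z p : ℝ) (m i : ℕ) : ℝ := (m : ℝ) ^ 2 * p * Real.exp (z * (i : ℝ))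

theorem lpT (k : ℕ) {z : ℝ} (d0 : 0 < z)
    (hσ : 1 < (k : ℝ) / (k + 1) * ∑ t ∈ range k, (1 - Real.exp (-(z * ((t : ℝ) + 1))))) :
    ∃ m0 : ℕ, ∀ m ≥ m0, ∀ D : ℕ, 1 ≤ D →
    ∀ (X0 : ℝ) (u : Fin m → ℝ),
      (∀ i, 0 ≤ u i ∧ u i ≤ 1 ∧ u i ≤ 2 * D * Real.exp (X0 - xt z (1 + Real.log D) m i)) →
      (k : ℝ) + 1 ≤ ∑ i, u i →
      X0 + 3 * m + 3 ≤
        (k : ℝ) / (k + 1) * ∑ i, u i * max (X0 - xt z (1 + Real.log D) m i) 0 := by
  generalize hS : ∑ t ∈ range k, (1 - Real.exp (-(z * ((t : ℝ) + 1)))) = σ at hσ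
  obtain ⟨ζ, z0, z1, z2⟩ : ∃ ζ : ℝ, 0 < ζ ∧ ζ < 1 ∧ 1 + 2 * ζ ≤ (k : ℝ) / (k + 1) * σ :=
    ⟨min (1 / 2) (((k : ℝ) / (k + 1) * σ - 1) / 2), lt_min (by norm_num) (by linarith),
      (min_le_left _ _).trans_lt (by norm_num),
      by linarith [min_le_right (1 / 2 : ℝ) (((k : ℝ) / (k + 1) * σ - 1) / 2)]⟩
  have ev : ∀ᶠ m : ℕ in Filter.atTop, k < m ∧ ‖Real.log m‖ ≤ ζ / 2 * ‖(m : ℝ)‖ ∧
      (Real.log (2 / ζ) + 6) / (ζ / 2) ≤ m :=
    (Filter.eventually_gt_atTop k).and ((tendsto_natCast_atTop_atTop.eventually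
      (Real.isLittleO_log_id_atTop.bound (half_pos z0))).and
      (tendsto_natCast_atTop_atTop.eventually_ge_atTop _))
  obtain ⟨m0, hm0⟩ := Filter.eventually_atTop.1 ev
  refine ⟨m0, fun m hm D hD X0 u hu hs => ?_⟩
  have D1 : (1 : ℝ) ≤ D := by exact_mod_cast hD
  have D2 := Real.log_nonneg D1
  obtain ⟨hkm, l1, l2⟩ := hm0 m hm
  have m1 : (1 : ℝ) ≤ m := by exact_mod_cast (by omega : 1 ≤ m)
  rw [div_le_iff₀ (half_pos z0)] at l2
  rw [Real.norm_natCast] at l1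
  have l3 := (le_abs_self _).trans l1
  have q1 : 1 ≤ 2 * D / ζ * m :=
    one_le_mul_of_one_le_of_one_le ((one_le_div z0).2 (by linarith)) m1
  have hh := Real.log_nonneg q1
  have hx : Monotone (xt z (1 + Real.log D) m) := fun i j hij => by
    have : (i : ℝ) ≤ j := by exact_mod_cast hij
    unfold xt
    gcongr
  obtain ⟨c1, c2⟩ := LLP_core (k := k) (m := m) (x := xt z (1 + Real.log D) m)
    (u := fun i => if h : i < m then u ⟨i, h⟩ else 0)
    (e := fun t => Real.exp (-(z * ((t : ℝ) + 1))))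
    (X := X0 + Real.log (2 * D / ζ * m)) hx (fun i => by unfold xt; positivity) hkm hh z0.le z1
    (fun i hi => by
      obtain ⟨u0, u1, u2⟩ := hu ⟨i, hi⟩
      rw [dif_pos hi]
      refine ⟨u0, u1, fun h => u2.trans ?_⟩
      have h1 : Real.exp (X0 - xt z (1 + Real.log D) m i) ≤ (2 * D / ζ * m)⁻¹ := by
        rw [← Real.exp_log (zero_lt_one.trans_le q1), ← Real.exp_neg]
        exact Real.exp_le_exp.2 (by linarith)
      refine (mul_le_mul_of_nonneg_left h1 (by positivity)).trans (le_of_eq ?_)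
      field_simp)
    (by
      rw [← Fin.sum_univ_eq_sum_range (fun i => if h : i < m then u ⟨i, h⟩ else 0)]
      simpa using hs)
    (fun a t ht => by
      unfold xt
      rw [mul_assoc _ (Real.exp _), ← Real.exp_add, Nat.cast_add, Nat.cast_add, Nat.sub_sub,
        Nat.cast_sub (by omega)]
      push_cast
      congr 2
      ring) fun t => (Real.exp_pos _).le
  rw [hS, ← Fin.sum_univ_eq_sum_range (fun i => (if h : i < m then u ⟨i, h⟩ else 0) *
    max (X0 + Real.log (2 * D / ζ * m) - Real.log (2 * D / ζ * m) -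
      xt z (1 + Real.log D) m i) 0)] at c2
  simp only [Fin.is_lt, dif_pos, Fin.eta, add_sub_cancel_right] at c2
  have c3 : xt z (1 + Real.log D) m 0 = (m : ℝ) ^ 2 * (1 + Real.log D) := by simp [xt]
  have c4 : Real.log (2 * D / ζ * m) + 6 ≤ ζ * m * (1 + Real.log D) := by
    have a : 0 ≤ Real.log (2 / ζ) := Real.log_nonneg ((one_le_div z0).2 (by linarith))
    have b := mul_le_mul_of_nonneg_right (show 1 ≤ ζ * m by linarith) D2
    rw [Real.log_mul (by positivity) (by positivity), mul_div_right_comm,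
      Real.log_mul (by positivity) (by positivity)]
    linarith
  generalize Real.log (2 * D / ζ * m) = h at *
  have κ0 : 0 ≤ (k : ℝ) / (k + 1) := by positivity
  have κ1 : (k : ℝ) / (k + 1) ≤ 1 := (div_le_one (by positivity)).2 (by linarith)
  generalize (k : ℝ) / (k + 1) = κ at *
  rw [c3] at c1
  have X1 : 0 ≤ X0 + h := le_trans (by positivity) c1.le
  refine le_trans ?_ (mul_le_mul_of_nonneg_left c2 κ0)
  have y1 := mul_le_mul_of_nonneg_left z2 X1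
  have y2 := mul_le_mul_of_nonneg_left κ1 (mul_nonneg X1 z0.le)
  have y3 := mul_le_mul_of_nonneg_left κ1 (mul_nonneg hh (zero_le_one.trans m1))
  have y4 := mul_le_mul_of_nonneg_left c1.le z0.le
  have y5 := mul_le_mul_of_nonneg_right c4 (zero_le_one.trans m1)
  linarith

theorem paramsT (m0 : ℕ) {z κ A : ℝ} (z0 : 0 < z) (κ0 : 0 ≤ κ) (A0 : 0 < A) (hz : z * κ < 1) :
    ∃ y0 : ℝ, 0 ≤ y0 ∧ ∀ y ≥ y0, ∀ (N : ℕ) (p : ℝ), 1 ≤ p → p * Real.exp y ≤ A * Real.log N →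
    ∃ m ≥ m0, 0 < N ∧ (∀ i < m, xt z p m i ≤ Real.log N) ∧
    ∑ i : Fin m, ⌈(N : ℝ) * Real.exp (-xt z p m i)⌉₊ ≤ N ∧
    κ * N * y ≤ (((N - ∑ i : Fin m, ⌈(N : ℝ) * Real.exp (-xt z p m i)⌉₊) * m : ℕ) : ℝ) := by
  obtain ⟨a, ha⟩ : ∃ a : ℝ, a = (1 - z * κ) / 2 := ⟨_, rfl⟩
  have a0 : 0 < a := by rw [ha]; linarith
  obtain ⟨η, hη⟩ : ∃ η : ℝ, η = a / z := ⟨_, rfl⟩
  have η0 : 0 < η := by rw [hη]; positivity
  have η1 : z * η = a := by rw [hη]; field_simp
  refine ⟨1 + (2 + m0) / η + 6 * A * (κ + η + 1) ^ 2 / a ^ 3, by positivity,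
    fun y hy N p hp hN => ?_⟩
  have p1 : (0 : ℝ) ≤ m0 := Nat.cast_nonneg _
  have p2 : 0 ≤ 6 * A * (κ + η + 1) ^ 2 / a ^ 3 := by positivity
  have p3 : 0 ≤ (2 + m0) / η := by positivity
  have y8 : 1 ≤ y := by linarith
  have y9 : 2 + m0 ≤ y * η := (div_le_iff₀ η0).1 (by linarith)
  have l0 : 0 < Real.log N := (mul_pos_iff_of_pos_left A0).1 (lt_of_lt_of_le (by positivity) hN)
  have N0' : 0 < N := Nat.pos_of_ne_zero fun e => by simp [e] at l0
  have N1 : (0 : ℝ) < N := Nat.cast_pos.2 N0'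
  obtain ⟨m, hm⟩ : ∃ m, m = ⌈(κ + η) * y⌉₊ := ⟨_, rfl⟩
  have κy : 0 ≤ κ * y := mul_nonneg κ0 (by linarith)
  have m1 : (κ + η) * y ≤ m := hm ▸ Nat.le_ceil _
  have m2 : (m : ℝ) ≤ (κ + η + 1) * y := by
    have := Nat.ceil_lt_add_one (a := (κ + η) * y) (by positivity)
    rw [← hm] at this
    linarith
  have m3 : (2 : ℝ) ≤ m := by linarith
  have e1 : A * (m : ℝ) ^ 2 ≤ Real.exp (a * y) := by
    refine le_trans ?_ (Real.pow_div_factorial_le_exp _ (by positivity) 3)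
    have h : 6 * A * (κ + η + 1) ^ 2 ≤ y * a ^ 3 := (div_le_iff₀ (by positivity)).1 (by linarith)
    have h2 := mul_le_mul_of_nonneg_right h (sq_nonneg y)
    have h3 := mul_le_mul_of_nonneg_left (pow_le_pow_left₀ (Nat.cast_nonneg m) m2 2) A0.le
    norm_num [Nat.factorial]
    linarith
  have x1 : ∀ i < m, xt z p m i ≤ Real.log N := fun i hi => by
    have h : (i : ℝ) < (κ + η) * y := Nat.lt_ceil.1 (hm ▸ hi)
    have h1 : A * (m : ℝ) ^ 2 * Real.exp (z * i) ≤ Real.exp y := by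
      refine (mul_le_mul_of_nonneg_right e1 (Real.exp_pos _).le).trans ?_
      rw [← Real.exp_add, Real.exp_le_exp]
      have h2 := mul_le_mul_of_nonneg_left h.le z0.le
      have h3 : z * ((κ + η) * y) = y - a * y := by
        rw [← mul_assoc, mul_add, η1, show z * κ = 1 - 2 * a by linarith]
        ring
      linarith
    have h4 := mul_le_mul_of_nonneg_left h1 (zero_le_one.trans hp)
    refine le_of_mul_le_mul_left ?_ A0
    rw [xt]
    linarith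
  have s1 : ((∑ i : Fin m, ⌈(N : ℝ) * Real.exp (-xt z p m i)⌉₊ : ℕ) : ℝ) * m ≤ 2 * N := by
    rw [Nat.cast_sum]
    have h := sum_le_card_nsmul (univ : Finset (Fin m))
      (fun i => (⌈(N : ℝ) * Real.exp (-xt z p m i)⌉₊ : ℝ)) (2 * N / (m : ℝ) ^ 2) fun i _ =>
        LAsy_term N1 (by linarith) ((le_mul_of_one_le_right (sq_nonneg _) hp).trans
          (le_mul_of_one_le_right (by positivity) (Real.one_le_exp (by positivity)))) (x1 i i.2)
    refine (mul_le_mul_of_nonneg_right h (Nat.cast_nonneg m)).trans_eq ?_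
    rw [card_univ, Fintype.card_fin, nsmul_eq_mul]
    field_simp
  have s2 : ∑ i : Fin m, ⌈(N : ℝ) * Real.exp (-xt z p m i)⌉₊ ≤ N := by
    have := mul_le_mul_of_nonneg_left m3
      (Nat.cast_nonneg (α := ℝ) (∑ i : Fin m, ⌈(N : ℝ) * Real.exp (-xt z p m i)⌉₊))
    exact Nat.cast_le.1 (by linarith : (_ : ℝ) ≤ _)
  refine ⟨m, Nat.cast_le.1 (by linarith : (m0 : ℝ) ≤ m), N0', x1, s2, ?_⟩
  rw [Nat.cast_mul, Nat.cast_sub s2]
  have := mul_le_mul_of_nonneg_left (show κ * y + 2 ≤ m by linarith) N1.le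
  linarith

theorem lowT (k : ℕ) (hk : 1 ≤ k) {κ : ℝ} (hκ : 0 < κ)
    (h : ∑ t ∈ range k, Real.exp (-((t : ℝ) + 1) / κ) < k - 1 - 1 / k) : ∃ K : ℝ, 0 ≤ K ∧
    ∀ (C : ℝ) (N : ℕ), 3 ≤ C → C ≤ N → ∃ G : SimpleGraph (Fin N), ¬ QR G k C ∧
      (κ * Real.log (Real.log N / Real.log C) - K) * N ≤ G.edgeSet.ncard := by
  obtain ⟨z, hz, z0, z1⟩ : ∃ z : ℝ,
      ∑ t ∈ range k, Real.exp (-(z * ((t : ℝ) + 1))) < k - 1 - 1 / k ∧ 0 < z ∧ z < κ⁻¹ := by
    have hc : Continuous fun z : ℝ => ∑ t ∈ range k, Real.exp (-(z * ((t : ℝ) + 1))) := by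
      fun_prop
    obtain ⟨z, a1, a2, a3⟩ := (((hc.tendsto κ⁻¹).eventually (gt_mem_nhds (lt_of_eq_of_lt
      (sum_congr rfl fun t _ => by rw [neg_div, div_eq_inv_mul]) h))).and
        (lt_mem_nhds (inv_pos.2 hκ))).exists_lt
    exact ⟨z, a2, a3, a1⟩
  have k1 : (0 : ℝ) < k := by exact_mod_cast hk
  obtain ⟨m0, hm0⟩ := lpT k z0 (by
    rw [sum_sub_distrib, sum_const, card_range, nsmul_eq_mul, mul_one, div_mul_eq_mul_div,
      lt_div_iff₀ (by positivity)]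
    have a := mul_lt_mul_of_pos_left hz k1
    have b : (k : ℝ) * (1 / k) = 1 := mul_one_div_cancel k1.ne'
    linarith)
  obtain ⟨y0, y1, hy0⟩ := paramsT m0 z0 hκ.le (show (0 : ℝ) < k + 2 by positivity) (by
    rwa [← one_div, lt_div_iff₀ hκ] at z1)
  refine ⟨κ * y0, by positivity, fun C N hC hCN => ?_⟩
  obtain ⟨y, hy⟩ : ∃ y, y = Real.log (Real.log N / Real.log C) := ⟨_, rfl⟩
  rw [← hy]
  rcases le_total y y0 with hc | hc
  · refine ⟨⊥, fun ⟨H, ⟨x, hx⟩, hdeg⟩ => ?_, le_trans (mul_nonpos_of_nonpos_of_nonneg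
      (sub_nonpos.2 (mul_le_mul_of_nonneg_left hc hκ.le)) (Nat.cast_nonneg _)) (Nat.cast_nonneg _)⟩
    obtain ⟨w, hw⟩ := Set.nonempty_of_ncard_ne_zero ((Nat.zero_le _).trans_lt (hdeg x hx).1).ne'
    exact H.adj_sub hw
  obtain ⟨D, hD⟩ : ∃ D, D = ⌈C * k⌉₊ + 1 := ⟨_, rfl⟩
  have D1 : (1 : ℝ) ≤ D := by exact_mod_cast (by omega : 1 ≤ D)
  have c1 : 1 ≤ Real.log C :=
    (Real.le_log_iff_exp_le (by linarith)).2 (by linarith [Real.exp_one_lt_d9])
  have c2 : Real.log C ≤ Real.log N := Real.log_le_log (by linarith) hCN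
  obtain ⟨p, hp⟩ : ∃ p, p = 1 + Real.log D := ⟨_, rfl⟩
  obtain ⟨m, hm, hNpos, hx, hsum, hedge⟩ := hy0 y hc N p
    (hp ▸ le_add_of_nonneg_right (Real.log_nonneg D1)) (by
      have a : (D : ℝ) ≤ C * (k + 1) := by
        have := Nat.ceil_lt_add_one (show 0 ≤ C * k by positivity)
        rw [hD]
        push_cast
        linarith
      have b := Real.log_le_log (by linarith) a
      rw [Real.log_mul (by linarith) (by positivity)] at b
      have b1 := Real.log_le_sub_one_of_pos (show (0 : ℝ) < k + 1 by positivity)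
      have b2 := mul_le_mul_of_nonneg_left c1 (show (0 : ℝ) ≤ k + 1 by positivity)
      rw [hy, Real.exp_log (div_pos (by linarith) (by linarith)), ← mul_div_assoc,
        div_le_iff₀ (by linarith), mul_right_comm]
      exact mul_le_mul_of_nonneg_right (by linarith) (by linarith))
  let nn : Fin m → ℕ := fun i => ⌈(N : ℝ) * Real.exp (-xt z p m i)⌉₊
  set n := N - ∑ i : Fin m, ⌈(N : ℝ) * Real.exp (-xt z p m i)⌉₊ with hn
  have hNR : (0 : ℝ) < N := Nat.cast_pos.2 hNpos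
  have hpos : ∀ i : Fin m, 0 < (N : ℝ) * Real.exp (-xt z p m i) := fun i => by positivity
  have hnn : ∀ i, 0 < nn i := fun i => Nat.ceil_pos.2 (hpos i)
  have hlo : ∀ i : Fin m, (N : ℝ) * Real.exp (-xt z p m i) ≤ nn i := fun i => Nat.le_ceil _
  have hup : ∀ i : Fin m, (nn i : ℝ) ≤ 2 * ((N : ℝ) * Real.exp (-xt z p m i)) := by
    intro i
    have h1 : (nn i : ℝ) < (N : ℝ) * Real.exp (-xt z p m i) + 1 := Nat.ceil_lt_add_one (hpos i).le
    have h2 : (1 : ℝ) ≤ (N : ℝ) * Real.exp (-xt z p m i) := by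
      have h3 : Real.exp (-Real.log N) ≤ Real.exp (-xt z p m i) :=
        Real.exp_le_exp.2 (neg_le_neg (hx i i.isLt))
      rw [Real.exp_neg, Real.exp_log hNR] at h3
      calc (1 : ℝ) = N * (N : ℝ)⁻¹ := (mul_inv_cancel₀ hNR.ne').symm
        _ ≤ _ := mul_le_mul_of_nonneg_left h3 hNR.le
    linarith
  obtain ⟨f, hf⟩ := lower_union n m (k + 1) D nn (by omega) hnn (by
    intro a ha han e he hs
    have haR : (0 : ℝ) < a := Nat.cast_pos.2 ha
    have hexp : ∀ i : Fin m, Real.exp (Real.log ((N : ℝ) / a) - xt z p m i) =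
        (N : ℝ) * Real.exp (-xt z p m i) / a := by
      intro i
      rw [sub_eq_add_neg, Real.exp_add, Real.exp_log (by positivity)]
      ring
    have h1 := hm0 m hm D (by omega) (Real.log ((N : ℝ) / a)) (fun i => (e i : ℝ) / a) (fun i => by
      refine ⟨by positivity, (div_le_one haR).2 (by exact_mod_cast (he i).1), ?_⟩
      rw [← hp, hexp, ← mul_div_assoc]
      refine div_le_div_of_nonneg_right ?_ haR.le
      have h2 : (e i : ℝ) ≤ D * nn i := by exact_mod_cast (he i).2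
      have h3 := mul_le_mul_of_nonneg_left (hup i) (Nat.cast_nonneg (α := ℝ) D)
      linarith) (by
      rw [← sum_div, le_div_iff₀ haR]
      exact_mod_cast hs)
    rw [← hp] at h1
    have h2 : Real.log ((n : ℝ) / a) ≤ Real.log ((N : ℝ) / a) := by
      have h3 : (a : ℝ) ≤ n := by exact_mod_cast han
      have h4 : (n : ℝ) ≤ N := by exact_mod_cast (Nat.sub_le _ _ : n ≤ N)
      exact Real.log_le_log (div_pos (by linarith) haR) (div_le_div_of_nonneg_right h4 haR.le)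
    have h3 : ∑ i : Fin m, (e i : ℝ) / a * max (Real.log ((N : ℝ) / a) - xt z p m i) 0 ≤
        (∑ i, (e i : ℝ) * max (Real.log ((nn i : ℝ) / a)) 0) / a := by
      rw [sum_div]
      refine sum_le_sum fun i _ => ?_
      rw [mul_div_right_comm]
      refine mul_le_mul_of_nonneg_left (max_le_max_right _ ?_) (by positivity)
      rw [Real.le_log_iff_exp_le (div_pos (Nat.cast_pos.2 (hnn i)) haR), hexp]
      exact div_le_div_of_nonneg_right (hlo i) haR.le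
    have h4 : (((k + 1 : ℕ) : ℝ) - 1) / (k + 1 : ℕ) = (k : ℝ) / (k + 1) := by
      push_cast
      ring
    have h5 := h1.trans (mul_le_mul_of_nonneg_left h3 (by positivity))
    rw [← mul_div_assoc, le_div_iff₀ haR] at h5
    rw [h4]
    nlinarith)
  have hcard : Fintype.card (Fin n ⊕ BB nn) = N := by
    rw [Fintype.card_sum, Fintype.card_fin, Fintype.card_sigma]
    simp only [Fintype.card_fin]
    exact Nat.sub_add_cancel hsum
  let e : (Fin n ⊕ BB nn) ≃ Fin N := Fintype.equivFinOfCardEq hcard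
  refine ⟨graph e f, ?_, le_trans ?_ (hedge.trans (by exact_mod_cast card_edges e f))⟩
  · rintro ⟨H, ⟨x, hx⟩, hdeg⟩
    have hne : (edges H).Nonempty := by
      have h1 : (H.neighborSet x).Nonempty := Set.nonempty_of_ncard_ne_zero (by
        have := (hdeg x hx).1
        omega)
      obtain ⟨y, hy⟩ := h1
      obtain ⟨p, ⟨h1, h2⟩ | ⟨h1, h2⟩⟩ := H.adj_sub hy
      · exact ⟨p, mem_edges.2 (by rw [← h1, ← h2]; exact hy)⟩
      · exact ⟨p, mem_edges.2 (by rw [← h1, ← h2]; exact hy.symm)⟩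
    refine hf (edges H) hne fun p hp => ⟨?_, ?_, ?_⟩
    · rw [← ncard_left]
      exact (hdeg _ (H.edge_vert (mem_edges.1 hp))).1
    · rw [← ncard_right]
      exact (hdeg _ (H.edge_vert (mem_edges.1 hp).symm)).1
    · rw [← ncard_right]
      have h1 := (hdeg _ (H.edge_vert (mem_edges.1 hp).symm)).2.le.trans (Nat.le_ceil (C * k))
      have h2 : (H.neighborSet (e (Sum.inr (nb f p)))).ncard ≤ ⌈C * k⌉₊ := by exact_mod_cast h1
      omega
  · have : 0 ≤ κ * y0 * N := by positivity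
    linarith

end Pool.Agent.Work.MP_78fef3_co.Z
end

-- merged part: Pool.Agent.Work.MP_78fef3_co.Y.Upper
section
/-! The two edge bounds with the same constant, given the graph statement `CoreR`. -/

namespace Pool.Agent.Work.MP_78fef3_co.Y

open Finset Real Pool.Agent.Work.MP_78fef3_co.S Pool.Agent.Work.MP_78fef3_co.R

theorem upperY (k : ℕ) (hk : 2 ≤ k)
    (H : ∀ z : ℝ, 0 < z → (k : ℝ) - 1 - 1 / k < ∑ t ∈ range k, exp (-(z * ((t : ℝ) + 1))) →
      ∃ C0 : ℝ, ∀ C ≥ C0, ∃ g : ℕ, 1 ≤ g ∧ CoreR z k C g) {b : ℝ} (hb : 0 < b)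
    (h : (k : ℝ) - 1 - 1 / k < ∑ t ∈ range k, exp (-((t : ℝ) + 1) / b)) :
    ∃ C0 : ℝ, ∀ C ≥ C0, ∃ n0 : ℕ, ∀ n ≥ n0, ∀ G : SimpleGraph (Fin n), ¬ QR G k C →
      (G.edgeSet.ncard : ℝ) ≤ b * n * log (log n) := by
  classical
  obtain ⟨z, hz, hbz⟩ : ∃ z : ℝ,
      (k : ℝ) - 1 - 1 / k < ∑ t ∈ range k, exp (-(z * ((t : ℝ) + 1))) ∧ b⁻¹ < z := by
    have hc : Continuous fun z : ℝ => ∑ t ∈ range k, exp (-(z * ((t : ℝ) + 1))) := by
      fun_prop
    obtain ⟨z, a1, a2⟩ := ((hc.tendsto b⁻¹).eventually (lt_mem_nhds (h.trans_eq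
      (sum_congr rfl fun t _ => by rw [neg_div, div_eq_inv_mul])))).exists_gt
    exact ⟨z, a2, a1⟩
  have z0 : 0 < z := (inv_pos.2 hb).trans hbz
  have z1 : z⁻¹ < b := (inv_lt_comm₀ hb z0).1 hbz
  obtain ⟨C0, hC0⟩ := H z z0 hz
  refine ⟨max C0 2, fun C hC2 => ?_⟩
  have hC : (k : ℝ) + 1 < C * k := by
    have a : (2 : ℝ) ≤ k := by exact_mod_cast hk
    nlinarith [le_of_max_le_right hC2]
  obtain ⟨g, hg, hcore⟩ := hC0 C (le_of_max_le_left hC2)
  obtain ⟨k', g', hk', hcr⟩ := crudeR k C hC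
  obtain ⟨n0, hn0⟩ := params k k' g g' hk' z0 (half_pos (sub_pos.2 z1))
  refine ⟨n0, fun n hn G hG => ?_⟩
  obtain ⟨J1, L1, I, J2, L2, h1, h1', h2, h3, h4, h5⟩ := hn0 n hn
  have h3' : Fintype.card (Fin n) ≤ 2 ^ L1 := by simpa using h3
  have h6 := sharpR hcore hg G hG J1 L1 (32 * (I + 2) ^ (g' + 1)) (32 * (J2 + 2) ^ (g' + 1)) h1 h3'
    (by positivity) (fun U => hcr _ G hG I L1 h1' U fun u _ => (card_le_univ _).trans h3')
    fun U hU => hcr _ G hG J2 L2 h2 U fun u hu => (hU u hu).trans h4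
  rw [Fintype.card_fin] at h6
  have h7 : (G.edgeSet.ncard : ℝ) ≤ ((J1 + 2 + 32 * (J2 + 2) ^ (g' + 1) : ℕ) : ℝ) * n := by
    exact_mod_cast h6
  calc (G.edgeSet.ncard : ℝ) ≤ ((z⁻¹ + 2 * ((b - z⁻¹) / 2)) * log (log n)) * n :=
        h7.trans (mul_le_mul_of_nonneg_right h5 (Nat.cast_nonneg _))
    _ = _ := by ring

theorem root (k : ℕ) (hk : 2 ≤ k) :
    ∃ c : ℝ, 0 < c ∧ ∑ t ∈ range k, exp (-((t : ℝ) + 1) / c) = k - 1 - 1 / k := by
  have k2 : (2 : ℝ) ≤ k := by exact_mod_cast hk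
  have k3 : (1 : ℝ) / k ≤ 1 / 2 := one_div_le_one_div_of_le two_pos k2
  have k4 : (0 : ℝ) < 1 / k := by positivity
  have hc : Continuous fun z : ℝ => ∑ t ∈ range k, exp (-(z * ((t : ℝ) + 1))) := by fun_prop
  obtain ⟨z, ⟨z0, -⟩, hz⟩ := intermediate_value_Icc' (show (0 : ℝ) ≤ 2 * k by positivity)
    hc.continuousOn (show (k : ℝ) - 1 - 1 / k ∈ _ from ⟨by
      refine (sum_le_card_nsmul _ _ (exp (-(2 * k))) fun t _ => exp_le_exp.2 (neg_le_neg
        (le_mul_of_one_le_right (by positivity) (by simp)))).trans ?_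
      rw [card_range, nsmul_eq_mul, exp_neg, ← div_eq_mul_inv, div_le_iff₀ (exp_pos _)]
      nlinarith [add_one_le_exp (2 * (k : ℝ))], by
      simp only [zero_mul, neg_zero, exp_zero, sum_const, card_range, nsmul_eq_mul, mul_one]
      linarith⟩)
  rcases z0.eq_or_lt with rfl | z1
  · simp only [zero_mul, neg_zero, exp_zero, sum_const, card_range, nsmul_eq_mul, mul_one] at hz
    linarith
  · exact ⟨z⁻¹, inv_pos.2 z1, (sum_congr rfl fun t _ => by
      rw [neg_div, div_inv_eq_mul, mul_comm]).trans hz⟩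

theorem sum_lt (k : ℕ) (hk : 1 ≤ k) {a b : ℝ} (ha : 0 < a) (h : a < b) :
    ∑ t ∈ range k, exp (-((t : ℝ) + 1) / a) < ∑ t ∈ range k, exp (-((t : ℝ) + 1) / b) :=
  sum_lt_sum_of_nonempty (nonempty_range_iff.2 (by omega)) fun t _ => exp_lt_exp.2 (by
    rw [neg_div, neg_div]
    exact neg_lt_neg (div_lt_div_of_pos_left (by positivity) ha h))

theorem exactY (k : ℕ) (hk : 2 ≤ k)
    (H : ∀ z : ℝ, 0 < z → (k : ℝ) - 1 - 1 / k < ∑ t ∈ range k, exp (-(z * ((t : ℝ) + 1))) →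
      ∃ C0 : ℝ, ∀ C ≥ C0, ∃ g : ℕ, 1 ≤ g ∧ CoreR z k C g) :
    ∃ c : ℝ, 0 < c ∧ ∑ t ∈ range k, exp (-((t : ℝ) + 1) / c) = k - 1 - 1 / k ∧
      ∀ ε > 0, ∃ C0 : ℝ, ∀ C ≥ C0, ∃ n0 : ℕ, ∀ n ≥ n0,
        (∃ G : SimpleGraph (Fin n), ¬ QR G k C ∧ (c - ε) * n * log (log n) ≤ G.edgeSet.ncard) ∧
        ∀ G : SimpleGraph (Fin n), ¬ QR G k C →
          (G.edgeSet.ncard : ℝ) ≤ (c + ε) * n * log (log n) := by
  obtain ⟨c, c0, hc⟩ := root k hk
  refine ⟨c, c0, hc, fun ε hε => ?_⟩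
  obtain ⟨C0, hC0⟩ := upperY k hk H (add_pos c0 hε)
    (hc ▸ sum_lt k (by omega) c0 (lt_add_of_pos_right c hε))
  refine ⟨C0, fun C hC => ?_⟩
  obtain ⟨n0, h0⟩ := hC0 C hC
  have a0 : 0 < max (c - ε) (c / 2) := lt_max_of_lt_right (half_pos c0)
  obtain ⟨n1, h1⟩ := lowerR C k (by omega) a0
    (hc ▸ sum_lt k (by omega) a0 (max_lt (sub_lt_self c hε) (half_lt_self c0)))
  refine ⟨n0 + n1 + 3, fun n hn => ⟨?_, h0 n (by omega)⟩⟩
  obtain ⟨G, g1, g2⟩ := h1 n (by omega)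
  have b : (3 : ℝ) ≤ n := by exact_mod_cast (by omega : 3 ≤ n)
  refine ⟨G, g1, le_trans (mul_le_mul_of_nonneg_right (mul_le_mul_of_nonneg_right (le_max_left _ _)
    (Nat.cast_nonneg _)) (log_nonneg ((le_log_iff_exp_le (by linarith)).2 ?_))) g2⟩
  linarith [exp_one_lt_d9]

end Pool.Agent.Work.MP_78fef3_co.Y
end

-- merged part: Pool.Agent.Work.MP_78fef3_co.Z.Up
section
/-! The upper bound, uniform in the ratio `C`, and the two bounds together. -/

namespace Pool.Agent.Work.MP_78fef3_co.Z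

open Finset Real Pool.Agent.Work.MP_78fef3_co.S Pool.Agent.Work.MP_78fef3_co.R
open Pool.Agent.Work.MP_78fef3_co.Y

theorem QR_mono {V : Type} {G : SimpleGraph V} {k : ℕ} {C C' : ℝ} (h : C ≤ C') :
    QR G k C → QR G k C' := fun ⟨H, h1, h2⟩ => ⟨H, h1, fun x hx => ⟨(h2 x hx).1,
  (h2 x hx).2.trans_le (mul_le_mul_of_nonneg_right h (Nat.cast_nonneg _))⟩⟩

theorem degen {V : Type} [Fintype V] [DecidableEq V] (G : SimpleGraph V) [DecidableRel G.Adj]
    {k : ℕ} {C : ℝ} (hG : ¬ QR G k C) (U : Finset V)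
    (hU : ∀ u ∈ U, ((U.filter (G.Adj u)).card : ℝ) < C * k) :
    ∑ u ∈ U, (U.filter (G.Adj u)).card ≤ 2 * k * U.card := by
  induction U using Finset.strongInduction with
  | H U ih =>
  rcases U.eq_empty_or_nonempty with rfl | hne
  · simp
  by_cases hc : ∀ u ∈ U, k < (U.filter (G.Adj u)).card
  · refine absurd ⟨(⊤ : G.Subgraph).induce U, hne, fun x hx => ?_⟩ hG
    have e : ((⊤ : G.Subgraph).induce U).neighborSet x = (U.filter (G.Adj x) : Finset V) := by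
      ext y
      have : x ∈ U := hx
      simp [this]
    rw [e, Set.ncard_coe_finset]
    exact ⟨hc x hx, hU x hx⟩
  push Not at hc
  obtain ⟨v, hv, h1⟩ := hc
  obtain ⟨W, hW, rfl⟩ : ∃ W, v ∉ W ∧ U = insert v W :=
    ⟨U.erase v, notMem_erase _ _, (insert_erase hv).symm⟩
  have s1 : ∀ u, W.filter (G.Adj u) ⊆ (insert v W).filter (G.Adj u) := fun u =>
    filter_subset_filter _ (subset_insert _ _)
  have h2 := ih W (ssubset_insert hW) fun u hu =>
    (Nat.cast_le.2 (card_le_card (s1 u))).trans_lt (hU u (mem_insert_of_mem hu))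
  have h3 : ∑ u ∈ W, ((insert v W).filter (G.Adj u)).card ≤
      ∑ u ∈ W, (W.filter (G.Adj u)).card + (W.filter (G.Adj v)).card := by
    rw [card_filter (G.Adj v), ← sum_add_distrib]
    refine sum_le_sum fun u _ => ?_
    rw [filter_insert]
    by_cases h : G.Adj u v
    · rw [if_pos h, if_pos h.symm]
      exact card_insert_le _ _
    · rw [if_neg h]
      exact Nat.le_add_right _ _
  have h4 := (card_le_card (s1 v)).trans h1
  rw [sum_insert hW, card_insert_of_notMem hW, mul_add_one]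
  omega

theorem sharpT {z : ℝ} {k : ℕ} {C : ℝ} {g : ℕ} (hcore : CoreT z k C g) (hg : 1 ≤ g) {V : Type}
    [Fintype V] [DecidableEq V] (G : SimpleGraph V) [DecidableRel G.Adj] (hG : ¬ QR G k C)
    (J1 L1 l D1 D2 Y : ℕ) (h1 : (L1 : ℝ) < l * exp (z * ((J1 : ℝ) - k)))
    (hL1 : Fintype.card V ≤ 2 ^ L1) (p1 : 0 < D1) (hY : (4 * D1 ^ 3 * (L1 + 1)) ^ g ≤ Y)
    (hl : 2 ^ l ≤ Y)
    (cr1 : ∀ U : Finset V, ∑ u ∈ U, (U.filter (G.Adj u)).card ≤ 2 * D1 * U.card)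
    (cr2 : ∀ U : Finset V, (∀ u ∈ U, (U.filter (G.Adj u)).card < Y) →
      ∑ u ∈ U, (U.filter (G.Adj u)).card ≤ 2 * D2 * U.card) :
    G.edgeSet.ncard ≤ (J1 + 2 + D2) * Fintype.card V := by
  set n := Fintype.card V with hn
  obtain ⟨Q, hQ⟩ : ∃ Q, Q = 4 * D1 ^ 3 * (L1 + 1) := ⟨_, rfl⟩
  rw [← hQ] at hY
  have hQ1 : 4 * D1 ^ 3 ≤ Q := hQ ▸ Nat.le_mul_of_pos_right _ (Nat.succ_pos _)
  have hQ2 : L1 + 1 ≤ Q := hQ ▸ Nat.le_mul_of_pos_left _ (by positivity)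
  let d : V → ℕ := fun u => (univ.filter (G.Adj u)).card
  have hdn : ∀ (S : Finset V) (u : V), (S.filter (G.Adj u)).card ≤ d u := fun S u =>
    card_le_card (filter_subset_filter _ (subset_univ S))
  have hd1 : ∀ u, d u ≤ 2 ^ L1 := fun u => (card_le_univ _).trans hL1
  have h0 : ∑ u, d u ≤ 2 * D1 * n := cr1 univ
  have hsub : ∀ S : Finset V, ∑ u ∈ S, d u ≤ 2 * D1 * n := fun S =>
    (sum_le_sum_of_subset (subset_univ S)).trans h0
  have hZQ : 2 * D1 ^ 2 ≤ 4 * D1 ^ 3 :=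
    Nat.mul_le_mul (by norm_num) (Nat.pow_le_pow_right p1 (by norm_num))
  have hZY : 2 * D1 ^ 2 ≤ Y :=
    ((hZQ.trans hQ1).trans (Nat.le_self_pow (by omega) _)).trans hY
  let Hi := univ.filter fun u => 2 * D1 ^ 2 ≤ d u
  let U := univ.filter fun u => d u < Y
  let B := univ.filter fun u => Y ≤ d u
  let Lo := univ.filter fun u => d u < 2 * D1 ^ 2
  let A := Lo.filter fun a => J1 + 1 ≤ (B.filter (G.Adj a)).card
  have a1 : ∑ u ∈ Hi, (Hi.filter (G.Adj u)).card ≤ 2 * n := by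
    have b1 := (card_nsmul_le_sum Hi d (2 * D1 ^ 2) fun u hu => (mem_filter.1 hu).2).trans (hsub Hi)
    have b2 : D1 * Hi.card ≤ n := by
      refine Nat.le_of_mul_le_mul_left ?_ (show 0 < 2 * D1 by positivity)
      rw [smul_eq_mul] at b1
      linarith
    have b3 := cr1 Hi
    linarith
  have a2 : ∑ u ∈ U, (U.filter (G.Adj u)).card ≤ 2 * D2 * n :=
    (cr2 U fun u hu => (hdn U u).trans_lt (mem_filter.1 hu).2).trans
      (Nat.mul_le_mul_left _ (card_le_univ U))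
  have a3 : 2 * D1 ^ 2 * A.card ≤ n := by
    by_contra hc
    have hA : A.Nonempty := by
      rw [← card_pos]
      by_contra h
      rw [show A.card = 0 by omega] at hc
      omega
    have hN : ∀ a, ∃ N : Finset V, a ∈ A → N ⊆ B.filter (G.Adj a) ∧ N.card = J1 + 1 := fun a => by
      by_cases ha : a ∈ A
      · obtain ⟨N, c1, c2⟩ := exists_subset_card_eq (mem_filter.1 ha).2
        exact ⟨N, fun _ => ⟨c1, c2⟩⟩
      · exact ⟨∅, fun h => absurd h ha⟩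
    choose N hN using hN
    refine hG (hcore V G A B N d J1 L1 l Q hA ?_ (fun a ha => ⟨(hN a ha).1.trans
      (filter_subset _ _), (hN a ha).2, fun w hw => (mem_filter.1 ((hN a ha).1 hw)).2⟩)
      (fun w hw => ⟨card_le_card fun a ha => ?_, hY.trans (mem_filter.1 hw).2, hd1 w⟩) ?_ ?_
      (fun w hw => hl.trans (mem_filter.1 hw).2) h1
      (hL1.trans_lt (Nat.pow_lt_pow_right one_lt_two hQ2)))
    · refine disjoint_left.2 fun a ha hb => ?_
      have c1 := (mem_filter.1 (mem_filter.1 ha).1).2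
      have c2 := (mem_filter.1 hb).2
      omega
    · obtain ⟨c1, c2⟩ := mem_filter.1 ha
      exact mem_filter.2 ⟨mem_univ _, (mem_filter.1 ((hN a c1).1 c2)).2.symm⟩
    · refine (hsub B).trans ((Nat.mul_le_mul_left _ (not_le.1 hc).le).trans
        (le_trans (le_of_eq ?_) (Nat.mul_le_mul_right _ hQ1)))
      ring
    · have := Nat.pow_pos (n := 3) p1
      omega
  have a4 : ∑ u ∈ Lo, (B.filter (G.Adj u)).card ≤ (J1 + 1) * n := by
    rw [← sum_filter_add_sum_filter_not Lo fun a => J1 + 1 ≤ (B.filter (G.Adj a)).card]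
    have b1 := sum_le_card_nsmul A (fun u => (B.filter (G.Adj u)).card) (2 * D1 ^ 2) fun u hu =>
      (hdn B u).trans (mem_filter.1 (mem_filter.1 hu).1).2.le
    have b2 := (sum_le_card_nsmul (Lo.filter fun a => ¬ J1 + 1 ≤ (B.filter (G.Adj a)).card)
      (fun u => (B.filter (G.Adj u)).card) J1 fun u hu =>
        Nat.lt_succ_iff.1 (not_le.1 (mem_filter.1 hu).2)).trans
      (Nat.mul_le_mul_right J1 (card_le_univ _))
    rw [smul_eq_mul, mul_comm] at b1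
    refine (add_le_add (b1.trans a3) b2).trans (le_of_eq ?_)
    ring
  have a5 := Sharp_split G U Hi Lo B
    (fun u hu => mem_filter.2 ⟨mem_univ _, not_lt.1 fun h => hu (mem_filter.2 ⟨mem_univ _, h⟩)⟩)
    (fun u hu => mem_filter.2 ⟨mem_univ _, not_le.1 fun h => hu (mem_filter.2 ⟨mem_univ _, h⟩)⟩)
    fun u hu => mem_filter.2 ⟨mem_univ _, hZY.trans (mem_filter.1 hu).2⟩
  have a6 : ∑ u, (univ.filter (G.Adj u)).card = 2 * G.edgeSet.ncard := by
    rw [← SimpleGraph.coe_edgeFinset, Set.ncard_coe_finset,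
      ← SimpleGraph.sum_degrees_eq_twice_card_edges]
    refine sum_congr rfl fun u _ => ?_
    rw [← SimpleGraph.card_neighborFinset_eq_degree, SimpleGraph.neighborFinset_eq_filter]
  linarith

theorem polyT (k g g' : ℕ) (hk : 1 ≤ k) : ∃ M : ℝ, 0 < M ∧ ∀ n : ℕ, 1 ≤ log n → ∃ I L : ℕ,
    Enough k I L ∧ n ≤ 2 ^ L ∧ (L : ℝ) ≤ 3 * log n ∧
      log ((4 * (32 * (I + 2) ^ (g' + 1)) ^ 3 * (L + 1)) ^ g : ℕ) ≤ M * (2 + log (log n)) := by
  have k1 : (1 : ℝ) ≤ k := by exact_mod_cast hk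
  obtain ⟨σ, hσ⟩ : ∃ σ : ℝ, σ = ((k : ℝ) * (k + 1) - 1) / 2 := ⟨_, rfl⟩
  have σ0 : 0 ≤ σ := by rw [hσ]; nlinarith
  refine ⟨(g + 1) * (50 + 3 * (g' + 1) * (k + 3 + σ)), by positivity, fun n h2 => ?_⟩
  have h3 : (0 : ℝ) < n := Nat.cast_pos.2 (Nat.pos_of_ne_zero fun e => by norm_num [e] at h2)
  have h4 := Nat.ceil_lt_add_one (by linarith : 0 ≤ 2 * log (n : ℝ))
  have h5 := Nat.le_ceil (2 * log (n : ℝ))
  have y0 := log_nonneg h2
  have h6 : log ((⌈2 * log (n : ℝ)⌉₊ : ℕ) + 1) ≤ 3 + log (log n) := by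
    refine (log_le_log (by linarith) (by linarith : _ ≤ 4 * log (n : ℝ))).trans ?_
    rw [log_mul (by norm_num) (by linarith)]
    linarith [log_le_sub_one_of_pos (by norm_num : (0 : ℝ) < 4)]
  obtain ⟨I, hI, hI'⟩ := UAsy_enough hk ⌈2 * log (n : ℝ)⌉₊ (t := 2 + log (log n)) (by
    refine (log_le_log (by linarith) (by linarith : _ ≤ 3 * log (n : ℝ))).trans ?_
    rw [log_mul (by norm_num) (by linarith)]
    linarith [log_le_sub_one_of_pos (by norm_num : (0 : ℝ) < 3)])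
  refine ⟨I, _, hI, ?_, by linarith, ?_⟩
  · have : (n : ℝ) ≤ 2 ^ ⌈2 * log (n : ℝ)⌉₊ := by
      rw [← log_le_log_iff h3 (by positivity), log_pow]
      nlinarith [log_two_gt_d9]
    exact_mod_cast this
  · rw [← hσ] at hI'
    generalize log (log (n : ℝ)) = y at *
    generalize ⌈2 * log (n : ℝ)⌉₊ = L at *
    have a1 : log ((I : ℝ) + 2) ≤ (k + 3 + σ) * (2 + y) := by
      have := mul_nonneg (show (0 : ℝ) ≤ k + 3 by positivity) y0
      linarith [log_le_sub_one_of_pos (by positivity : (0 : ℝ) < I + 2)]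
    have a2 := mul_le_mul_of_nonneg_left a1 (show (0 : ℝ) ≤ g' + 1 by positivity)
    push_cast
    rw [log_pow, log_mul (by positivity) (by positivity), log_mul (by positivity) (by positivity),
      log_pow, log_mul (by positivity) (by positivity), log_pow, mul_assoc, add_one_mul]
    refine le_trans (mul_le_mul_of_nonneg_left ?_ (Nat.cast_nonneg _))
      (le_add_of_nonneg_right (by positivity))
    push_cast
    linarith [log_le_sub_one_of_pos (by norm_num : (0 : ℝ) < 4),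
      log_le_sub_one_of_pos (by norm_num : (0 : ℝ) < 32)]

theorem upT (k : ℕ) (hk : 2 ≤ k) {b : ℝ} (hb : 0 < b)
    (h : (k : ℝ) - 1 - 1 / k < ∑ t ∈ range k, exp (-((t : ℝ) + 1) / b)) :
    ∃ C0 K : ℝ, 0 ≤ K ∧ ∀ (C : ℝ) (n : ℕ), C0 ≤ C → C ≤ n → ∀ G : SimpleGraph (Fin n),
      ¬ QR G k C → (G.edgeSet.ncard : ℝ) ≤ (b * log (log n / log C) + K) * n := by
  classical
  obtain ⟨z, hz, hbz⟩ : ∃ z : ℝ,
      (k : ℝ) - 1 - 1 / k < ∑ t ∈ range k, exp (-(z * ((t : ℝ) + 1))) ∧ b⁻¹ < z := by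
    have hc : Continuous fun z : ℝ => ∑ t ∈ range k, exp (-(z * ((t : ℝ) + 1))) := by
      fun_prop
    obtain ⟨z, a1, a2⟩ := ((hc.tendsto b⁻¹).eventually (lt_mem_nhds (h.trans_eq
      (sum_congr rfl fun t _ => by rw [neg_div, div_eq_inv_mul])))).exists_gt
    exact ⟨z, a2, a1⟩
  have z0 : 0 < z := (inv_pos.2 hb).trans hbz
  have z1 : z⁻¹ < b := (inv_lt_comm₀ hb z0).1 hbz
  have z2 := inv_pos.2 z0
  have k2 : (2 : ℝ) ≤ k := by exact_mod_cast hk
  obtain ⟨C1, g, hg, hcore⟩ := coreT k hk z0 hz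
  obtain ⟨C2, hC2⟩ := upperY k hk (fun z => by
    rcases hk.eq_or_lt with rfl | h
    · exact X.core2
    · exact coreY k h) z2 (hz.trans_eq (sum_congr rfl fun t _ => by
      rw [neg_div, div_inv_eq_mul, mul_comm]))
  obtain ⟨n0, hn0⟩ := hC2 C2 le_rfl
  obtain ⟨k', g', hk', hcr⟩ := crudeR k 3 (by linarith)
  obtain ⟨M, M0, hM⟩ := polyT k' g g' hk'
  obtain ⟨δ, hδ⟩ : ∃ δ, δ = (b - z⁻¹) / b := ⟨_, rfl⟩
  have δ0 : 0 < δ := hδ ▸ div_pos (sub_pos.2 z1) hb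
  have δ1 : b * δ = b - z⁻¹ := by rw [hδ]; field_simp
  have q1 := abs_nonneg (b * log (M / δ))
  have q2 := Nat.cast_nonneg (α := ℝ) n0
  refine ⟨max (max C1 C2) 3, n0 + |b * log (M / δ)| + 2 * b + 2 * k + 3, by positivity,
    fun C n hC hCn G hG => ?_⟩
  have C3 : 3 ≤ C := le_of_max_le_right hC
  have c1 : 1 ≤ log C := (le_log_iff_exp_le (by linarith)).2 (by linarith [exp_one_lt_d9])
  have c2 : log C ≤ log n := log_le_log (by linarith) hCn
  have c3 : 0 ≤ log (log n / log C) := log_nonneg ((one_le_div (by linarith)).2 c2)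
  have c4 := mul_nonneg hb.le c3
  obtain ⟨I, L, h1, h2, h3, h4⟩ := hM n (c1.trans c2)
  have h2' : Fintype.card (Fin n) ≤ 2 ^ L := by simpa using h2
  by_cases hc : ⌈C * k⌉₊ ≤ (4 * (32 * (I + 2) ^ (g' + 1)) ^ 3 * (L + 1)) ^ g
  · rcases le_total n n0 with hn | hn
    · have a : G.edgeSet.ncard ≤ n0 * n := by
        rw [← SimpleGraph.coe_edgeFinset, Set.ncard_coe_finset]
        refine G.card_edgeFinset_le_card_choose_two.trans ((Nat.choose_le_pow _ _).trans ?_)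
        rw [Fintype.card_fin, sq]
        exact Nat.mul_le_mul_right _ hn
      refine le_trans (Nat.cast_le.2 a) ?_
      push_cast
      exact mul_le_mul_of_nonneg_right (by linarith) (Nat.cast_nonneg _)
    · refine (hn0 n hn G fun a => hG (QR_mono
        (le_of_max_le_right (le_of_max_le_left hC)) a)).trans ?_
      have y0 := log_nonneg (c1.trans c2)
      have a1 : log C ≤ M / δ * (δ * (2 + log (log n))) := by
        rw [← mul_assoc, div_mul_cancel₀ _ δ0.ne']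
        exact (log_le_log (by linarith) (le_trans (le_mul_of_one_le_right (by linarith)
          (by linarith)) (Nat.ceil_le.1 hc))).trans h4
      have a2 := log_le_log (by linarith) a1
      rw [log_mul (by positivity) (by positivity)] at a2
      have a3 := mul_le_mul_of_nonneg_left (a2.trans (add_le_add_right
        (log_le_sub_one_of_pos (by positivity)) _)) hb.le
      rw [mul_add, mul_sub, ← mul_assoc, δ1] at a3
      rw [mul_right_comm, log_div (by linarith) (by linarith)]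
      exact mul_le_mul_of_nonneg_right (by linarith [le_abs_self (b * log (M / δ))])
        (Nat.cast_nonneg _)
  · obtain ⟨y, hy⟩ : ∃ y, y = log (log n / log C) := ⟨_, rfl⟩
    have e1 : log n = exp y * log C := by
      rw [hy, exp_log (div_pos (by linarith) (by linarith)), div_mul_cancel₀ _ (by linarith)]
    rw [← hy] at c3 c4 ⊢
    have f0 : 0 ≤ z⁻¹ * (y + 2) := by positivity
    have f1 := Nat.floor_le f0
    have f2 := (inv_mul_lt_iff₀ z0).1 (Nat.lt_floor_add_one (z⁻¹ * (y + 2)))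
    have l1 : log C ≤ Nat.log 2 ⌈C * k⌉₊ := by
      have a : (⌈C * k⌉₊ : ℝ) < 2 ^ (Nat.log 2 ⌈C * k⌉₊ + 1) := by
        exact_mod_cast Nat.lt_pow_succ_log_self one_lt_two _
      have a1 := mul_le_mul_of_nonneg_left k2 (show 0 ≤ C by linarith)
      have a2 := log_le_log (show 0 < C by linarith)
        (show C ≤ 2 ^ Nat.log 2 ⌈C * k⌉₊ by
          rw [pow_succ] at a
          linarith [Nat.le_ceil (C * k)])
      rw [log_pow] at a2
      exact a2.trans (mul_le_of_le_one_right (Nat.cast_nonneg _) (by linarith [log_two_lt_d9]))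
    have h6 := sharpT (hcore C (le_of_max_le_left (le_of_max_le_left hC))) hg G hG
      (k + ⌊z⁻¹ * (y + 2)⌋₊ + 1) L (Nat.log 2 ⌈C * k⌉₊) (32 * (I + 2) ^ (g' + 1)) k ⌈C * k⌉₊
      (by
        have a : 3 * exp y ≤ exp (y + 2) := by
          rw [exp_add, mul_comm]
          exact mul_le_mul_of_nonneg_left (by linarith [add_one_le_exp 2]) (exp_nonneg _)
        have a1 := mul_le_mul a l1 (by linarith) (exp_nonneg _)
        refine lt_of_le_of_lt (by linarith : _ ≤ Nat.log 2 ⌈C * k⌉₊ * exp (y + 2))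
          (mul_lt_mul_of_pos_left (exp_lt_exp.2 ?_) (by linarith))
        push_cast
        linarith) h2' (by positivity) (not_le.1 hc).le
      (Nat.pow_log_le_self 2 ((Nat.zero_le _).trans_lt (not_le.1 hc)).ne')
      (fun U => hcr _ G (fun a => hG (QR_mono C3 a)) I L h1 U
        fun u _ => (card_le_univ _).trans h2')
      fun U hU => degen G hG U fun u hu => Nat.lt_ceil.1 (hU u hu)
    rw [Fintype.card_fin] at h6
    refine le_trans (Nat.cast_le.2 h6) ?_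
    have := mul_le_mul_of_nonneg_right z1.le (show 0 ≤ y + 2 by linarith)
    push_cast
    exact mul_le_mul_of_nonneg_right (by linarith) (Nat.cast_nonneg _)

theorem tradeoff (k : ℕ) (hk : 2 ≤ k) :
    ∃ c : ℝ, 0 < c ∧ ∑ t ∈ range k, exp (-((t : ℝ) + 1) / c) = k - 1 - 1 / k ∧
      ∀ ε > 0, ∃ C0 K : ℝ, ∀ (C : ℝ) (n : ℕ), C0 ≤ C → C ≤ n →
        (∃ G : SimpleGraph (Fin n), ¬ QR G k C ∧
          ((c - ε) * log (log n / log C) - K) * n ≤ G.edgeSet.ncard) ∧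
        ∀ G : SimpleGraph (Fin n), ¬ QR G k C →
          (G.edgeSet.ncard : ℝ) ≤ ((c + ε) * log (log n / log C) + K) * n := by
  obtain ⟨c, c0, hc⟩ := root k hk
  refine ⟨c, c0, hc, fun ε hε => ?_⟩
  obtain ⟨C0, K, K0, h0⟩ := upT k hk (add_pos c0 hε)
    (hc ▸ sum_lt k (by omega) c0 (lt_add_of_pos_right c hε))
  have a0 : 0 < max (c - ε) (c / 2) := lt_max_of_lt_right (half_pos c0)
  obtain ⟨K', K1, h1⟩ := lowT k (by omega) a0
    (hc ▸ sum_lt k (by omega) a0 (max_lt (sub_lt_self c hε) (half_lt_self c0)))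
  refine ⟨max C0 3, K + K', fun C n hC hCn => ⟨?_, fun G hG =>
    (h0 C n (le_of_max_le_left hC) hCn G hG).trans
      (mul_le_mul_of_nonneg_right (by linarith) (Nat.cast_nonneg _))⟩⟩
  have C3 : 3 ≤ C := le_of_max_le_right hC
  obtain ⟨G, g1, g2⟩ := h1 C n C3 hCn
  have c3 : 0 ≤ log (log n / log C) := log_nonneg
    ((one_le_div (log_pos (by linarith))).2 (log_le_log (by linarith) hCn))
  have := mul_le_mul_of_nonneg_right (le_max_left (c - ε) (c / 2)) c3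
  exact ⟨G, g1, le_trans (mul_le_mul_of_nonneg_right (by linarith) (Nat.cast_nonneg _)) g2⟩

end Pool.Agent.Work.MP_78fef3_co.Z
end
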